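import Pool.Agent.K4H55.Fermat.Gauss

set_option linter.style.haveILetI false

open Finset

namespace Pool.Agent.K4H55.Fermat

variable {p : ℕ} [hp : Fact p.Prime]

/-- Every character of order `N = 2^(j+1)` is the residue character attached to some primitive
root of unity. -/
theorem exists_zeta {j n X : ℕ} (hpX : p = X ^ (2 ^ j) + 1) (hX : Even X)
    (hn : 2 ^ (j + 1) * n = p - 1) (χ : MulChar (ZMod p) ℂ) (hχ : orderOf χ = 2 ^ (j + 1)) :
    ∃ ζ : ℂ, IsPrimitiveRoot ζ (2 ^ (j + 1)) ∧ IsResidueChar p n X ζ χ := by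
  have hx : (X : ZMod p) ^ (2 ^ j) = -1 := by
    have h0 : ((p : ℕ) : ZMod p) = 0 := ZMod.natCast_self p
    have h1 := congrArg (Nat.cast : ℕ → ZMod p) hpX
    rw [h0] at h1
    push_cast at h1
    linear_combination -h1
  have hx1 : (X : ZMod p) ^ (2 ^ (j + 1)) = 1 := by
    rw [pow_succ, pow_mul, hx]; norm_num
  have hX0 : (X : ZMod p) ≠ 0 := by
    intro h0; rw [h0, zero_pow (by positivity)] at hx1; exact zero_ne_one hx1
  have hp1 : 0 < p - 1 := by have := hp.out.two_le; omega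
  have hn0 : 0 < n := by
    rcases Nat.eq_zero_or_pos n with h | h
    · rw [h, mul_zero] at hn; omega
    · exact h
  obtain ⟨g, hg⟩ := IsCyclic.exists_generator (α := (ZMod p)ˣ)
  have hgord : orderOf g = 2 ^ (j + 1) * n := by
    rw [orderOf_eq_card_of_forall_mem_zpowers hg, Nat.card_eq_fintype_card, ZMod.card_units, hn]
  have hpow : ∀ u : (ZMod p)ˣ, ∃ a : ℕ, g ^ a = u := by
    intro u
    exact (mem_powers_iff_mem_zpowers.mpr (hg u))
  -- an element with `t₀ ^ n = X`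
  obtain ⟨a, ha⟩ := hpow (Units.mk0 (X : ZMod p) hX0)
  have ha1 : g ^ (a * 2 ^ (j + 1)) = 1 := by
    rw [pow_mul, ha]
    ext
    push_cast
    rw [Units.val_mk0, hx1]
  have hna : n ∣ a := by
    have h1 := orderOf_dvd_of_pow_eq_one ha1
    rw [hgord, mul_comm a] at h1
    exact Nat.dvd_of_mul_dvd_mul_left (by positivity) h1
  obtain ⟨a', rfl⟩ := hna
  set t₀ : ZMod p := ((g ^ a' : (ZMod p)ˣ) : ZMod p) with ht₀
  have ht₀n : t₀ ^ n = (X : ZMod p) := by
    have h1 := congrArg (Units.val) ha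
    rw [Units.val_mk0, mul_comm, pow_mul, Units.val_pow_eq_pow_val] at h1
    rw [ht₀, h1]
  have ht₀0 : t₀ ≠ 0 := Units.ne_zero _
  have hχN : ∀ t : ZMod p, t ≠ 0 → χ t ^ (2 ^ (j + 1)) = 1 := by
    intro t ht
    have h1 : χ ^ (2 ^ (j + 1)) = 1 := by rw [← hχ, pow_orderOf_eq_one]
    rw [← MulChar.pow_apply' χ (by positivity), h1, MulChar.one_apply (isUnit_iff_ne_zero.mpr ht)]
  have hres : IsResidueChar p n X (χ t₀) χ := by
    intro t ht i hti
    -- `t = t₀^i * v^N`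
    have h1 : (t * (t₀ ^ i)⁻¹) ^ n = 1 := by
      rw [mul_pow, inv_pow, ← pow_mul, mul_comm i n, pow_mul, ht₀n, hti]
      exact mul_inv_cancel₀ (pow_ne_zero _ hX0)
    have hne : t * (t₀ ^ i)⁻¹ ≠ 0 := mul_ne_zero ht (inv_ne_zero (pow_ne_zero _ ht₀0))
    obtain ⟨b, hb⟩ := hpow (Units.mk0 _ hne)
    have hb1 : g ^ (b * n) = 1 := by
      rw [pow_mul, hb]
      ext
      push_cast
      rw [Units.val_mk0, h1]
    have hNb : 2 ^ (j + 1) ∣ b := by
      have h2 := orderOf_dvd_of_pow_eq_one hb1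
      rw [hgord] at h2
      exact Nat.dvd_of_mul_dvd_mul_right hn0 h2
    obtain ⟨c, rfl⟩ := hNb
    have h3 : t * (t₀ ^ i)⁻¹ = ((g ^ c : (ZMod p)ˣ) : ZMod p) ^ (2 ^ (j + 1)) := by
      have h4 := congrArg (Units.val) hb
      rw [Units.val_mk0] at h4
      rw [← h4, mul_comm, pow_mul, Units.val_pow_eq_pow_val]
    have h5 : t = t₀ ^ i * ((g ^ c : (ZMod p)ˣ) : ZMod p) ^ (2 ^ (j + 1)) := by
      rw [← h3]
      field_simp
    rw [h5, map_mul, map_pow, map_pow, hχN _ (Units.ne_zero _), mul_one]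
  refine ⟨χ t₀, ?_, hres⟩
  refine IsPrimitiveRoot.mk_of_lt _ (by positivity) (hχN t₀ ht₀0) ?_
  intro l hl hlN hζl
  have h1 : χ ^ l = 1 := by
    ext t
    have ht : (t : ZMod p) ≠ 0 := t.ne_zero
    rw [MulChar.pow_apply' χ hl.ne', MulChar.one_apply t.isUnit]
    -- `t^n` is a power of `X`
    have hp2 : p ≠ 2 := by
      intro h2
      have h1 : Even (X ^ (2 ^ j)) := Nat.even_pow.mpr ⟨hX, by positivity⟩
      have h3 : X ^ (2 ^ j) = 1 := by omega
      rw [h3] at h1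
      exact absurd h1 (by decide)
    have h2 : ((t : ZMod p) ^ n) ^ (2 ^ (j + 1)) = 1 := by
      rw [← pow_mul, mul_comm, hn, ZMod.pow_card_sub_one_eq_one ht]
    obtain ⟨i, _, hi⟩ := (prim_of_pow hp2 hx).eq_pow_of_pow_eq_one h2
    rw [hres t ht i hi.symm, ← pow_mul, mul_comm, pow_mul, hζl, one_pow]
  have h2 := orderOf_dvd_of_pow_eq_one h1
  rw [hχ] at h2
  exact absurd (Nat.le_of_dvd hl h2) (by omega)

end Pool.Agent.K4H55.Fermat
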