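import Mathlib

open Finset

namespace Pool.Agent.K4H55.Fermat

variable {p : ℕ} [hp : Fact p.Prime]

lemma sum_pow_zero {i : ℕ} (h : i < 2 * (p - 1)) (h' : i ≠ p - 1) : ∑ x : ZMod p, x ^ i = 0 := by
  by_cases h1 : i < p - 1
  · exact FiniteField.sum_pow_lt_card_sub_one (ZMod p) i (by rwa [ZMod.card])
  · have h2 : ∀ x : ZMod p, x ^ i = x ^ (i - (p - 1)) := by
      intro x
      by_cases hx : x = 0
      · subst hx
        rw [zero_pow (by have := hp.out.two_le; omega), zero_pow (by omega)]
      · have : i = (i - (p - 1)) + (p - 1) := by omega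
        conv_lhs => rw [this, pow_add, ZMod.pow_card_sub_one_eq_one hx, mul_one]
    rw [Finset.sum_congr rfl (fun x _ => h2 x)]
    exact FiniteField.sum_pow_lt_card_sub_one (ZMod p) _ (by rw [ZMod.card]; omega)

lemma sum_pow_top : ∑ x : ZMod p, x ^ (p - 1) = -1 := by
  have h2 : ∀ x : ZMod p, x ^ (p - 1) = 1 - if x = 0 then 1 else 0 := by
    intro x
    by_cases hx : x = 0
    · subst hx
      rw [zero_pow (by have := hp.out.two_le; omega)]; simp
    · rw [ZMod.pow_card_sub_one_eq_one hx]; simp [hx]
  rw [Finset.sum_congr rfl (fun x _ => h2 x), Finset.sum_sub_distrib]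
  simp

lemma expand (a : ℕ) (t : ZMod p) : t ^ a * (1 - t) ^ a =
    ∑ m ∈ range (a + 1), ((a.choose m : ZMod p) * (-1) ^ m) * t ^ (a + m) := by
  have h : (1 - t) ^ a = (-t + 1) ^ a := by ring
  rw [h, add_pow, Finset.mul_sum]
  refine Finset.sum_congr rfl fun m _ => ?_
  rw [one_pow, neg_pow, pow_add]; ring

lemma sum_small {a : ℕ} (h : 2 * a < p - 1) : ∑ t : ZMod p, t ^ a * (1 - t) ^ a = 0 := by
  simp_rw [expand]
  rw [Finset.sum_comm]
  refine Finset.sum_eq_zero fun m hm => ?_
  rw [← Finset.mul_sum, sum_pow_zero (by have := Finset.mem_range.mp hm; omega)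
    (by have := Finset.mem_range.mp hm; omega), mul_zero]

lemma sum_large {a n : ℕ} (h : a + n = p - 1) (hn : n ≤ a) (hn0 : 0 < n) :
    ∑ t : ZMod p, t ^ a * (1 - t) ^ a = -((a.choose n : ZMod p) * (-1) ^ n) := by
  simp_rw [expand]
  rw [Finset.sum_comm, Finset.sum_eq_single n]
  · rw [← Finset.mul_sum, h, sum_pow_top]; ring
  · intro m hm hmn
    rw [← Finset.mul_sum, sum_pow_zero (by have := Finset.mem_range.mp hm; omega)
      (by omega), mul_zero]
  · intro h'
    exact absurd (Finset.mem_range.mpr (by omega)) h'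

/-- `C(p - 1 - n, n) = (-1)^n C(2n, n)` modulo `p`. -/
lemma choose_flip {a n : ℕ} (h : a + n = p - 1) :
    (a.choose n : ZMod p) = (-1) ^ n * ((2 * n).choose n : ZMod p) := by
  have hnp : n < p := by have := hp.out.two_le; omega
  have hfac : ((n.factorial : ℕ) : ZMod p) ≠ 0 := by
    rw [Ne, ZMod.natCast_eq_zero_iff]
    intro hd
    exact absurd ((hp.out.dvd_factorial).mp hd) (by omega)
  apply mul_left_cancel₀ hfac
  by_cases hna : n ≤ a
  · have e1 : ((n.factorial : ℕ) : ZMod p) * (a.choose n : ZMod p) = ∏ i ∈ range n, ((a - i : ℕ) : ZMod p) := by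
      rw [← Nat.cast_mul, ← Nat.descFactorial_eq_factorial_mul_choose, Nat.descFactorial_eq_prod_range]
      push_cast; rfl
    have e2 : ((n.factorial : ℕ) : ZMod p) * ((2 * n).choose n : ZMod p) =
        ∏ i ∈ range n, ((n + 1 + i : ℕ) : ZMod p) := by
      rw [← Nat.cast_mul, ← Nat.descFactorial_eq_factorial_mul_choose]
      have : (2 * n).descFactorial n = (n + 1).ascFactorial n := by
        have := Nat.add_descFactorial_eq_ascFactorial n n
        rw [← this, two_mul]
      rw [this, Nat.ascFactorial_eq_prod_range]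
      push_cast; rfl
    rw [e1, mul_left_comm, e2, show (-1 : ZMod p) ^ n = ∏ _i ∈ range n, (-1 : ZMod p) by simp,
      ← Finset.prod_mul_distrib]
    refine Finset.prod_congr rfl fun i hi => ?_
    have hi' := Finset.mem_range.mp hi
    have e3 : ((a - i : ℕ) : ZMod p) + ((n + 1 + i : ℕ) : ZMod p) = 0 := by
      rw [← Nat.cast_add]
      have : a - i + (n + 1 + i) = p := by have := hp.out.two_le; omega
      rw [this]; simp
    linear_combination e3
  · have e1 : a.choose n = 0 := Nat.choose_eq_zero_of_lt (by omega)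
    have e2 : (((2 * n).choose n : ℕ) : ZMod p) = 0 := by
      rw [ZMod.natCast_eq_zero_iff]
      have hd : p ∣ (2 * n).factorial := (hp.out.dvd_factorial).mpr (by omega)
      have h2 : (2 * n).choose n * n.factorial * n.factorial = (2 * n).factorial := by
        have := Nat.choose_mul_factorial_mul_factorial (show n ≤ 2 * n by omega)
        rwa [show 2 * n - n = n by omega] at this
      rw [← h2] at hd
      have hnf : ¬ p ∣ n.factorial := fun hd => absurd ((hp.out.dvd_factorial).mp hd) (by omega)
      rcases (hp.out.dvd_mul).mp hd with h3 | h3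
      · rcases (hp.out.dvd_mul).mp h3 with h4 | h4
        · exact h4
        · exact absurd h4 hnf
      · exact absurd h3 hnf
    rw [e1, e2]; simp

end Pool.Agent.K4H55.Fermat
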