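import Pool.Agent.K4H55.Fermat.Ring
import Pool.Agent.K4H55.Fermat.Sums

set_option linter.style.haveILetI false

open Finset

namespace Pool.Agent.K4H55.Fermat

lemma pow_congr {S : Type*} [Monoid S] {s : S} {N : ℕ} (hs : s ^ N = 1) {a b : ℕ}
    (h : a ≡ b [MOD N]) : s ^ a = s ^ b := by
  rw [← pow_mod_orderOf, ← pow_mod_orderOf s b]
  congr 1
  exact h.of_dvd (orderOf_dvd_of_pow_eq_one hs)

variable {p : ℕ} [hp : Fact p.Prime]

/-- Data: `x` has `x ^ (2 ^ j) = -1` in `ZMod p`. -/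
lemma prim_of_pow {j : ℕ} (hp2 : p ≠ 2) {x : ZMod p} (hx : x ^ (2 ^ j) = -1) :
    IsPrimitiveRoot x (2 ^ (j + 1)) := by
  have hne : (-1 : ZMod p) ≠ 1 := by
    haveI : Fact (2 < p) := ⟨lt_of_le_of_ne hp.out.two_le (Ne.symm hp2)⟩
    exact ZMod.neg_one_ne_one
  have h := orderOf_eq_prime_pow (x := x) (p := 2) (n := j) (by rw [hx]; exact hne)
    (by rw [pow_succ, pow_mul, hx]; norm_num)
  rw [← h]; exact IsPrimitiveRoot.orderOf x

lemma z_prim (j : ℕ) : IsPrimitiveRoot (z j) (2 ^ (j + 1)) := by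
  have hne : (-1 : Cy j) ≠ 1 := by
    intro h
    have h2 : (2 : Cy j) = 0 := by linear_combination -h
    exact two_ne_zero h2
  have h := orderOf_eq_prime_pow (x := z j) (p := 2) (n := j) (by rw [z_pow]; exact hne)
    (by rw [pow_succ, pow_mul, z_pow]; norm_num)
  rw [← h]; exact IsPrimitiveRoot.orderOf _

/-- The power residue character attached to `x`. -/
lemma exists_char {j n : ℕ} (hp2 : p ≠ 2) {x : ZMod p} (hx : x ^ (2 ^ j) = -1)
    (hn : 2 ^ (j + 1) * n = p - 1) :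
    ∃ χ : MulChar (ZMod p) (Cy j), ∀ t : ZMod p, t ≠ 0 → ∃ i : ℕ, χ t = z j ^ i ∧ x ^ i = t ^ n := by
  have hxp := prim_of_pow hp2 hx
  have hex : ∀ t : ZMod p, t ≠ 0 → ∃ i : ℕ, x ^ i = t ^ n := by
    intro t ht
    have h1 : (t ^ n) ^ (2 ^ (j + 1)) = 1 := by
      rw [← pow_mul, mul_comm, hn, ZMod.pow_card_sub_one_eq_one ht]
    obtain ⟨i, _, hi⟩ := hxp.eq_pow_of_pow_eq_one h1
    exact ⟨i, hi⟩
  choose! e he using hex
  have hz : ∀ a b : ℕ, x ^ a = x ^ b → z j ^ a = z j ^ b := by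
    intro a b hab
    apply pow_congr (z_pow_N j)
    have h1 : x ^ (a % 2 ^ (j + 1)) = x ^ (b % 2 ^ (j + 1)) := by
      rw [hxp.eq_orderOf, pow_mod_orderOf, pow_mod_orderOf, hab]
    exact hxp.pow_inj (Nat.mod_lt _ (by positivity)) (Nat.mod_lt _ (by positivity)) h1
  classical
  refine ⟨{ toFun := fun t => if t = 0 then 0 else z j ^ e t
            map_one' := ?_
            map_mul' := ?_
            map_nonunit' := ?_ }, ?_⟩
  · simp only [one_ne_zero, if_false]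
    rw [hz (e 1) 0 (by rw [he 1 one_ne_zero, one_pow, pow_zero]), pow_zero]
  · intro a b
    by_cases ha : a = 0
    · simp [ha]
    by_cases hb : b = 0
    · simp [hb]
    simp only [ha, hb, mul_eq_zero, or_self, if_false]
    rw [← pow_add]
    apply hz
    rw [he _ (mul_ne_zero ha hb), pow_add, he a ha, he b hb, mul_pow]
  · intro a ha
    simp [isUnit_iff_ne_zero] at ha
    simp [ha]
  · intro t ht
    refine ⟨e t, ?_, he t ht⟩
    show (if t = 0 then 0 else z j ^ e t) = _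
    simp [ht]

/-- Properties of the character. -/
structure IsChar (j n : ℕ) (x : ZMod p) (χ : MulChar (ZMod p) (Cy j)) : Prop where
  hp2 : p ≠ 2
  hx : x ^ (2 ^ j) = -1
  hn : 2 ^ (j + 1) * n = p - 1
  hχ : ∀ t : ZMod p, t ≠ 0 → ∃ i : ℕ, χ t = z j ^ i ∧ x ^ i = t ^ n

lemma IsChar.npos {j n : ℕ} {x : ZMod p} {χ : MulChar (ZMod p) (Cy j)} (h : IsChar j n x χ) :
    0 < n := by
  rcases Nat.eq_zero_or_pos n with h0 | h0
  · exfalso
    have := h.hn
    rw [h0, mul_zero] at this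
    have := hp.out.two_le
    omega
  · exact h0

lemma xpow {j : ℕ} {x : ZMod p} (hx : x ^ (2 ^ j) = -1) {b : ℕ} (hb : Odd b) :
    (x ^ b) ^ (2 ^ j) = -1 := by
  rw [← pow_mul, mul_comm, pow_mul, hx, hb.neg_one_pow]

lemma IsChar.ev_chi {j n : ℕ} {x : ZMod p} {χ : MulChar (ZMod p) (Cy j)} (h : IsChar j n x χ)
    {b : ℕ} (hb : Odd b) (t : ZMod p) : ev j (x ^ b) (xpow h.hx hb) (χ t) = t ^ (b * n) := by
  by_cases ht : t = 0
  · subst ht
    rw [MulChar.map_zero, map_zero, zero_pow (Nat.mul_pos hb.pos h.npos).ne']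
  · obtain ⟨i, hi, hxi⟩ := h.hχ t ht
    rw [hi, map_pow, ev_z, ← pow_mul, mul_comm b i, pow_mul, hxi, ← pow_mul, mul_comm n b]

lemma IsChar.cj_chi {j n : ℕ} {x : ZMod p} {χ : MulChar (ZMod p) (Cy j)} (h : IsChar j n x χ) :
    χ.ringHomComp (cj j) = χ⁻¹ := by
  ext t
  have ht : (t : ZMod p) ≠ 0 := t.ne_zero
  obtain ⟨i, hi, -⟩ := h.hχ t ht
  have h1 : χ⁻¹ (t : ZMod p) * χ (t : ZMod p) = 1 := by
    rw [MulChar.inv_apply', ← map_mul, inv_mul_cancel₀ ht, map_one]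
  have h2 : cj j (χ t) * χ t = 1 := by
    rw [hi, map_pow, cj, ev_z, ← mul_pow, ← pow_succ, Nat.sub_add_cancel Nat.one_le_two_pow,
      z_pow_N, one_pow]
  rw [MulChar.ringHomComp_apply]
  have h3 : χ (t : ZMod p) ≠ 0 := by
    intro h0; rw [h0, mul_zero] at h1; exact zero_ne_one h1
  exact mul_right_cancel₀ h3 (h2.trans h1.symm)

lemma IsChar.ep_chi {j n : ℕ} {x : ZMod p} {χ : MulChar (ZMod p) (Cy j)} (h : IsChar j n x χ)
    {t : ZMod p} (ht : t ≠ 0) : ep j (χ t) = 1 := by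
  obtain ⟨i, hi, -⟩ := h.hχ t ht
  rw [hi, map_pow, ep, ev_z, one_pow]

lemma IsChar.ne_one {j n : ℕ} {x : ZMod p} {χ : MulChar (ZMod p) (Cy j)} (h : IsChar j n x χ) :
    χ ≠ 1 := by
  intro h1
  have hN : 2 ≤ 2 ^ (j + 1) := by
    calc 2 = 2 ^ 1 := rfl
      _ ≤ 2 ^ (j + 1) := Nat.pow_le_pow_right (by norm_num) (by omega)
  have hnp : n < p - 1 := by
    have := h.hn; have := h.npos; nlinarith
  have h2 : ∑ t : ZMod p, t ^ n = 0 := sum_pow_zero (by omega) (by omega)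
  have h3 : ∑ t : ZMod p, t ^ n = ∑ t : ZMod p, t ^ (p - 1) := by
    refine Finset.sum_congr rfl fun t _ => ?_
    by_cases ht : t = 0
    · subst ht; rw [zero_pow h.npos.ne', zero_pow (by omega)]
    · have h4 := h.ev_chi odd_one t
      have h5 : χ t = 1 := by rw [h1, MulChar.one_apply (isUnit_iff_ne_zero.mpr ht)]
      rw [one_mul, h5, map_one] at h4
      rw [← h4, ZMod.pow_card_sub_one_eq_one ht]
  rw [h3, sum_pow_top] at h2
  exact absurd h2 (neg_ne_zero.mpr one_ne_zero)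

lemma IsChar.sq_ne_one {j n : ℕ} {x : ZMod p} {χ : MulChar (ZMod p) (Cy j)} (hj : 1 ≤ j)
    (h : IsChar j n x χ) : χ * χ ≠ 1 := by
  intro h1
  have hN : 4 ≤ 2 ^ (j + 1) := by
    calc 4 = 2 ^ 2 := rfl
      _ ≤ 2 ^ (j + 1) := Nat.pow_le_pow_right (by norm_num) (by omega)
  have hnp : 2 * n < p - 1 := by
    have := h.hn; have := h.npos; nlinarith
  have h2 : ∑ t : ZMod p, t ^ (2 * n) = 0 := sum_pow_zero (by omega) (by omega)
  have h3 : ∑ t : ZMod p, t ^ (2 * n) = ∑ t : ZMod p, t ^ (p - 1) := by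
    refine Finset.sum_congr rfl fun t _ => ?_
    by_cases ht : t = 0
    · subst ht; rw [zero_pow (by have := h.npos; omega), zero_pow (by omega)]
    · have h4 := h.ev_chi odd_one t
      have h5 : χ t * χ t = 1 := by
        rw [← MulChar.mul_apply, h1, MulChar.one_apply (isUnit_iff_ne_zero.mpr ht)]
      rw [one_mul] at h4
      rw [two_mul, pow_add, ← h4, ← map_mul, h5, map_one, ZMod.pow_card_sub_one_eq_one ht]
  rw [h3, sum_pow_top] at h2
  exact absurd h2 (neg_ne_zero.mpr one_ne_zero)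

/-- Norm of the Jacobi sum. -/
lemma IsChar.norm {j n : ℕ} {x : ZMod p} {χ : MulChar (ZMod p) (Cy j)} (hj : 1 ≤ j)
    (h : IsChar j n x χ) : jacobiSum χ χ * cj j (jacobiSum χ χ) = (p : Cy j) := by
  rw [← jacobiSum_ringHomComp, h.cj_chi]
  have hinj : Function.Injective (algebraMap (Cy j) (FractionRing (Cy j))) :=
    IsFractionRing.injective _ _
  apply hinj
  haveI : CharZero (FractionRing (Cy j)) := charZero_of_injective_algebraMap hinj
  have hc : ringChar (FractionRing (Cy j)) ≠ ringChar (ZMod p) := by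
    rw [ringChar.eq_zero (R := FractionRing (Cy j)), ZMod.ringChar_zmod_n]
    exact hp.out.ne_zero.symm
  have h1 : χ.ringHomComp (algebraMap (Cy j) (FractionRing (Cy j))) ≠ 1 :=
    (MulChar.ringHomComp_ne_one_iff hinj).mpr h.ne_one
  have h2 : χ.ringHomComp (algebraMap (Cy j) (FractionRing (Cy j))) *
      χ.ringHomComp (algebraMap (Cy j) (FractionRing (Cy j))) ≠ 1 := by
    rw [← MulChar.ringHomComp_mul]
    exact (MulChar.ringHomComp_ne_one_iff hinj).mpr (h.sq_ne_one hj)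
  have h3 := jacobiSum_mul_jacobiSum_inv hc h1 h1 h2
  rw [map_mul, ← jacobiSum_ringHomComp, ← jacobiSum_ringHomComp, ← MulChar.ringHomComp_inv, h3,
    ZMod.card, map_natCast]

end Pool.Agent.K4H55.Fermat
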