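import Pool.Agent.K4H55.Fermat.Jac

set_option linter.style.haveILetI false

open Finset

namespace Pool.Agent.K4H55.Fermat

variable {p : ℕ} [hp : Fact p.Prime]

lemma IsChar.K_congr {j n X : ℕ} {χ : MulChar (ZMod p) (Cy j)} (hj : 1 ≤ j)
    (hpX : p = X ^ (2 ^ j) + 1) (hX : Even X) (h : IsChar j n (X : ZMod p) χ) :
    ∃ Y : Cy j, ep j Y = 0 ∧ χ 4 * jacobiSum χ χ = -1 + 2 * Y := by
  have hchar : ringChar (ZMod p) ≠ 2 := by rw [ZMod.ringChar_zmod_n]; exact h.hp2
  have h2 : (2 : ZMod p) ≠ 0 := by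
    intro h0
    have : ((2 : ℕ) : ZMod p) = 0 := by exact_mod_cast h0
    rw [ZMod.natCast_eq_zero_iff] at this
    have h3 := Nat.le_of_dvd (by norm_num) this
    have := hp.out.two_le
    exact h.hp2 (by omega)
  -- first step
  have e1 : χ 4 * jacobiSum χ χ = ∑ s : ZMod p, χ (1 - s ^ 2) := by
    rw [jacobiSum, Finset.mul_sum]
    refine Fintype.sum_bijective (fun t : ZMod p => 1 - 2 * t) ?_ _ _ ?_
    · constructor
      · intro a b hab
        have : (2 : ZMod p) * a = 2 * b := by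
          have h3 : 1 - 2 * a = 1 - 2 * b := hab
          linear_combination -h3
        exact mul_left_cancel₀ h2 this
      · intro b
        refine ⟨(1 - b) / 2, ?_⟩
        show 1 - 2 * ((1 - b) / 2) = b
        field_simp; ring
    · intro t
      rw [← map_mul, ← map_mul]
      congr 1
      ring
  have e2 : ∑ s : ZMod p, χ (1 - s ^ 2) =
      ∑ v : ZMod p, ((quadraticChar (ZMod p) v + 1 : ℤ) : Cy j) * χ (1 - v) := by
    rw [← Finset.sum_fiberwise (s := univ) (g := fun s : ZMod p => s ^ 2)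
      (f := fun s => χ (1 - s ^ 2))]
    refine Finset.sum_congr rfl fun v _ => ?_
    have : ∑ s ∈ univ with s ^ 2 = v, χ (1 - s ^ 2) = ∑ s ∈ univ with s ^ 2 = v, χ (1 - v) := by
      refine Finset.sum_congr rfl fun s hs => ?_
      rw [(Finset.mem_filter.mp hs).2]
    rw [this, Finset.sum_const, nsmul_eq_mul, ← quadraticChar_card_sqrts hchar v]
    congr 1
    rw [Int.cast_natCast]
    congr 2
    ext s; simp
  have e3 : ∑ v : ZMod p, χ (1 - v) = 0 := by
    rw [← MulChar.sum_eq_zero_of_ne_one h.ne_one]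
    exact Equiv.sum_comp (Equiv.subLeft (1 : ZMod p)) (fun v => χ v)
  have e4 : ∑ v : ZMod p, ((quadraticChar (ZMod p) v : ℤ) : Cy j) = 0 := by
    rw [← Int.cast_sum, quadraticChar_sum_zero hchar, Int.cast_zero]
  let y : ZMod p → Cy j := fun v => if quadraticChar (ZMod p) v = -1 then 1 - χ (1 - v) else 0
  have hy : ∀ v, (((quadraticChar (ZMod p) v : ℤ) : Cy j) - 1) * (χ (1 - v) - 1) = 2 * y v := by
    intro v
    by_cases hv : v = 0
    · subst hv; simp [y]
    · rcases quadraticChar_dichotomy hv with h5 | h5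
      · have h6 : y v = 0 := if_neg (by rw [h5]; norm_num)
        rw [h6, h5]; simp
      · have h6 : y v = 1 - χ (1 - v) := if_pos h5
        rw [h6, h5]; push_cast; ring
  have hy0 : ∀ v, ep j (y v) = 0 := by
    intro v
    by_cases h5 : quadraticChar (ZMod p) v = -1
    · have hv1 : v ≠ 1 := by
        intro h6; subst h6
        rw [map_one] at h5
        exact absurd h5 (by norm_num)
      have h6 : y v = 1 - χ (1 - v) := if_pos h5
      rw [h6, map_sub, map_one, h.ep_chi (sub_ne_zero.mpr (Ne.symm hv1)), sub_self]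
    · have h6 : y v = 0 := if_neg h5
      rw [h6, map_zero]
  obtain ⟨a, ha⟩ := hX
  set s : ℕ := a * X ^ (2 ^ j - 1) with hs
  have hsplit : X ^ (2 ^ j) = 2 * s := by
    conv_lhs => rw [show 2 ^ j = (2 ^ j - 1) + 1 by have := Nat.one_le_two_pow (n := j); omega]
    rw [pow_succ, hs]
    nth_rewrite 2 [ha]
    ring
  have hseven : ((s : ℕ) : ZMod 2) = 0 := by
    rw [ZMod.natCast_eq_zero_iff]
    have : 2 ∣ X ^ (2 ^ j - 1) := by
      have h4 : 2 ≤ 2 ^ j := by
        calc 2 = 2 ^ 1 := rfl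
          _ ≤ 2 ^ j := Nat.pow_le_pow_right (by norm_num) hj
      exact dvd_pow (by rw [ha]; exact ⟨a, by ring⟩) (by omega)
    exact Dvd.dvd.mul_left this a
  refine ⟨∑ v, y v - (s : Cy j), ?_, ?_⟩
  · rw [map_sub, map_sum, Finset.sum_eq_zero (fun v _ => hy0 v), map_natCast, hseven, sub_zero]
  · rw [e1, e2]
    have e5 : ∀ v : ZMod p, ((quadraticChar (ZMod p) v + 1 : ℤ) : Cy j) * χ (1 - v) =
        2 * χ (1 - v) + 2 * y v + ((quadraticChar (ZMod p) v : ℤ) : Cy j) - 1 := by
      intro v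
      rw [← hy v]; push_cast; ring
    rw [Finset.sum_congr rfl (fun v _ => e5 v), Finset.sum_sub_distrib, Finset.sum_add_distrib,
      Finset.sum_add_distrib, ← Finset.mul_sum, ← Finset.mul_sum, e3, e4]
    simp only [mul_zero, zero_add, add_zero, Finset.sum_const, Finset.card_univ, ZMod.card,
      nsmul_eq_mul, mul_one]
    have hpc : (p : Cy j) = 2 * (s : Cy j) + 1 := by
      have := congrArg (Nat.cast : ℕ → Cy j) (hpX.trans (by rw [hsplit]))
      rw [this]; push_cast; ring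
    rw [hpc]; ring

lemma prod_congr_two {ι : Type*} [DecidableEq ι] (j : ℕ) (s : Finset ι) (y : ι → Cy j) :
    ∃ Y : Cy j, ∏ b ∈ s, (1 + 2 * y b) = 1 + 2 * Y ∧ ep j Y = ∑ b ∈ s, ep j (y b) := by
  induction s using Finset.induction_on with
  | empty => exact ⟨0, by simp, by simp⟩
  | insert a s ha ih =>
    obtain ⟨Y, h1, h2⟩ := ih
    refine ⟨y a + Y + 2 * y a * Y, ?_, ?_⟩
    · rw [Finset.prod_insert ha, h1]; ring
    · rw [Finset.sum_insert ha, ← h2, map_add, map_add, map_mul, map_mul]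
      have : ep j 2 = 0 := by rw [map_ofNat]; decide
      rw [this]; ring

/-- The odd numbers below `n`. -/
def odds (n : ℕ) : Finset ℕ := (range n).filter Odd

lemma mem_odds {n b : ℕ} : b ∈ odds n ↔ b < n ∧ Odd b := by simp [odds]

lemma prod_odds_add {M : Type*} [CommMonoid M] {n : ℕ} (hn : Even n) (f : ℕ → M) :
    ∏ c ∈ odds (n + n), f c = (∏ c ∈ odds n, f c) * ∏ c ∈ odds n, f (n + c) := by
  rw [odds, Finset.prod_filter, Finset.prod_range_add, odds, Finset.prod_filter,
    Finset.prod_filter]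
  congr 1
  refine Finset.prod_congr rfl fun c _ => ?_
  have : Odd (n + c) ↔ Odd c := by
    rw [Nat.odd_add]
    constructor
    · intro h; by_contra h'; rw [Nat.not_odd_iff_even] at h'
      exact absurd (h.mpr h') (Nat.not_odd_iff_even.mpr hn)
    · intro h
      constructor
      · intro h1; exact absurd h1 (Nat.not_odd_iff_even.mpr hn)
      · intro h1; exact absurd h (Nat.not_odd_iff_even.mpr h1)
  simp [this]

lemma prod_odds_reflect {M : Type*} [CommMonoid M] {n : ℕ} (hn : Even n) (f : ℕ → M) :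
    ∏ c ∈ odds n, f (n - c) = ∏ c ∈ odds n, f c := by
  refine Finset.prod_nbij' (fun c => n - c) (fun c => n - c) ?_ ?_ ?_ ?_ ?_
  · intro c hc
    rw [mem_odds] at hc ⊢
    exact ⟨by have := hc.2.pos; omega, Nat.Even.sub_odd hc.1.le hn hc.2⟩
  · intro c hc
    rw [mem_odds] at hc ⊢
    exact ⟨by have := hc.2.pos; omega, Nat.Even.sub_odd hc.1.le hn hc.2⟩
  · intro c hc; rw [mem_odds] at hc; show n - (n - c) = c; omega
  · intro c hc; rw [mem_odds] at hc; show n - (n - c) = c; omega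
  · intro c hc; rfl

lemma prod_odds_iv {M : Type*} [CommMonoid M] (j : ℕ) (f : ℕ → M) :
    ∏ c ∈ odds (2 ^ (j + 1)), f (iv j c) = ∏ c ∈ odds (2 ^ (j + 1)), f c := by
  refine Finset.prod_nbij' (iv j) (iv j) ?_ ?_ ?_ ?_ ?_
  · intro c hc; rw [mem_odds] at hc ⊢; exact ⟨iv_lt _ _, iv_odd j hc.2⟩
  · intro c hc; rw [mem_odds] at hc ⊢; exact ⟨iv_lt _ _, iv_odd j hc.2⟩
  · intro c hc; rw [mem_odds] at hc; exact iv_iv j hc.2 hc.1
  · intro c hc; rw [mem_odds] at hc; exact iv_iv j hc.2 hc.1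
  · intro c hc; rfl

lemma card_odds (j : ℕ) : (odds (2 ^ (j + 1))).card = 2 ^ j := by
  induction j with
  | zero => rfl
  | succ j ih =>
    have h := prod_odds_add (M := Multiplicative ℕ) (n := 2 ^ (j + 1))
      (Nat.even_pow.mpr ⟨even_two, by omega⟩) (fun _ => Multiplicative.ofAdd 1)
    rw [← two_mul, ← pow_succ'] at h
    simp only [Finset.prod_const, ← ofAdd_nsmul, ← ofAdd_add] at h
    have h2 := Multiplicative.ofAdd.injective h
    simp only [smul_eq_mul, mul_one] at h2
    rw [h2, ih]; ring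

lemma prod_all {S : Type*} [CommRing S] : ∀ (j : ℕ) (x s : S), s ^ (2 ^ j) = -1 →
    ∏ c ∈ odds (2 ^ (j + 1)), (x - s ^ c) = x ^ (2 ^ j) + 1 := by
  intro j
  induction j with
  | zero =>
    intro x s hs
    have : odds (2 ^ (0 + 1)) = {1} := by decide
    rw [this, Finset.prod_singleton]
    simp at hs
    rw [hs]; ring
  | succ j ih =>
    intro x s hs
    rw [pow_succ, mul_two, prod_odds_add (Nat.even_pow.mpr ⟨even_two, by omega⟩),
      ← Finset.prod_mul_distrib]
    have h1 : ∀ c ∈ odds (2 ^ (j + 1)), (x - s ^ c) * (x - s ^ (2 ^ (j + 1) + c)) =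
        x ^ 2 - (s ^ 2) ^ c := by
      intro c _
      rw [pow_add, hs]; ring
    rw [Finset.prod_congr rfl h1, ih (x ^ 2) (s ^ 2) (by rw [← pow_mul, ← pow_succ', hs]),
      ← pow_mul, ← pow_succ']

end Pool.Agent.K4H55.Fermat
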