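import Pool.Agent.K4H55.Fermat.Cong

set_option linter.style.haveILetI false

open Finset

namespace Pool.Agent.K4H55.Fermat

variable {p : ℕ} [hp : Fact p.Prime]

lemma odd_lt_odds {j b : ℕ} (hb : b ∈ odds (2 ^ j)) : b < 2 ^ (j + 1) := by
  have := (mem_odds.mp hb).1
  have : 2 ^ j ≤ 2 ^ (j + 1) := Nat.pow_le_pow_right (by norm_num) (by omega)
  omega

/-- The product of the prime factors divides the Jacobi sum. -/
lemma IsChar.dvd {j n X : ℕ} {χ : MulChar (ZMod p) (Cy j)}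
    (hpX : p = X ^ (2 ^ j) + 1) (hX : Even X) (h : IsChar j n (X : ZMod p) χ) :
    (∏ b ∈ odds (2 ^ j), ((X : Cy j) - z j ^ iv j b)) ∣ jacobiSum χ χ := by
  apply Finset.prod_dvd_of_coprime
  · intro b hb c hc hne
    have hb' := Finset.mem_coe.mp hb
    have hc' := Finset.mem_coe.mp hc
    refine coprime_factors hpX hX (iv_odd j (mem_odds.mp hb').2) (iv_odd j (mem_odds.mp hc').2) ?_
      (iv_lt _ _) (iv_lt _ _)
    intro heq
    exact hne (iv_inj j (mem_odds.mp hb').2 (mem_odds.mp hc').2 (odd_lt_odds hb')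
      (odd_lt_odds hc') heq)
  · intro b hb
    have hbo := (mem_odds.mp hb).2
    apply dvd_of_ev hpX (iv_mul j hbo) (xpow h.hx hbo)
    rw [jacobiSum, map_sum]
    have e : ∀ t : ZMod p, ev j ((X : ZMod p) ^ b) (xpow h.hx hbo) (χ t * χ (1 - t)) =
        t ^ (b * n) * (1 - t) ^ (b * n) := by
      intro t; rw [map_mul, h.ev_chi hbo, h.ev_chi hbo]
    rw [Finset.sum_congr rfl (fun t _ => e t)]
    apply sum_small
    rw [← h.hn, pow_succ]
    have h1 := (mem_odds.mp hb).1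
    have h2 := h.npos
    have h3 : b * n < 2 ^ j * n := Nat.mul_lt_mul_of_pos_right h1 h2
    calc 2 * (b * n) < 2 * (2 ^ j * n) := by omega
      _ = 2 ^ j * 2 * n := by ring

lemma iv_sub (j : ℕ) {b : ℕ} (hb : Odd b) (hlt : b < 2 ^ (j + 1)) :
    iv j (2 ^ (j + 1) - b) = 2 ^ (j + 1) - iv j b := by
  have hlt2 := iv_lt j b
  have hbpos := hb.pos
  have hipos := (iv_odd j hb).pos
  apply iv_unique
  · rw [← ZMod.natCast_eq_natCast_iff]
    have h1 := (ZMod.natCast_eq_natCast_iff _ _ _).mpr (iv_mul j hb)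
    rw [Nat.cast_mul, Nat.cast_sub hlt.le, Nat.cast_sub hlt2.le, ZMod.natCast_self]
    push_cast at h1 ⊢
    linear_combination h1
  · omega

lemma cj_factor (j X : ℕ) {b : ℕ} (hb : Odd b) (hlt : b < 2 ^ (j + 1)) :
    cj j ((X : Cy j) - z j ^ iv j b) = (X : Cy j) - z j ^ iv j (2 ^ (j + 1) - b) := by
  rw [map_sub, map_natCast, map_pow, cj, ev_z, ← pow_mul, iv_sub j hb hlt]
  congr 1
  apply pow_congr (z_pow_N j)
  rw [← ZMod.natCast_eq_natCast_iff, Nat.cast_mul, Nat.cast_sub Nat.one_le_two_pow,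
    Nat.cast_sub (iv_lt j b).le, ZMod.natCast_self]
  push_cast; ring

/-- The norm of the product. -/
lemma norm_prod (j X : ℕ) (hj : 1 ≤ j) :
    (∏ b ∈ odds (2 ^ j), ((X : Cy j) - z j ^ iv j b)) *
      cj j (∏ b ∈ odds (2 ^ j), ((X : Cy j) - z j ^ iv j b)) = (X : Cy j) ^ (2 ^ j) + 1 := by
  have hev : Even (2 ^ j) := Nat.even_pow.mpr ⟨even_two, by omega⟩
  rw [← prod_all j (X : Cy j) (z j) (z_pow j), ← prod_odds_iv, pow_succ, mul_two,
    prod_odds_add hev, map_prod]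
  congr 1
  rw [← prod_odds_reflect hev (fun c => (X : Cy j) - z j ^ iv j (2 ^ j + c))]
  refine Finset.prod_congr rfl fun b hb => ?_
  rw [cj_factor j X (mem_odds.mp hb).2 (odd_lt_odds hb)]
  have := (mem_odds.mp hb).1
  have e : 2 ^ (j + 1) - b = 2 ^ j + (2 ^ j - b) := by rw [pow_succ]; omega
  rw [e]

/-- The sign in the exact evaluation. -/
def sg (j X : ℕ) : ℤ := if j = 1 ∧ X % 4 = 2 then -1 else 1

lemma prod_one_sub (j X : ℕ) (hj : 1 ≤ j) (hX : Even X) :
    ∃ Y : Cy j, ∏ b ∈ odds (2 ^ j), (1 - (X : Cy j) * z j ^ (2 ^ (j + 1) - iv j b)) = 1 + 2 * Y ∧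
      ep j Y = if j = 1 ∧ X % 4 = 2 then 1 else 0 := by
  obtain ⟨a, ha⟩ := hX
  obtain ⟨Y, h1, h2⟩ := prod_congr_two j (odds (2 ^ j))
    (fun b => -((a : Cy j) * z j ^ (2 ^ (j + 1) - iv j b)))
  refine ⟨Y, ?_, ?_⟩
  · rw [← h1]
    refine Finset.prod_congr rfl fun b _ => ?_
    rw [ha]; push_cast; ring
  · rw [h2]
    have h3 : ∀ b ∈ odds (2 ^ j), ep j (-((a : Cy j) * z j ^ (2 ^ (j + 1) - iv j b))) =
        -(a : ZMod 2) := by
      intro b _
      rw [map_neg, map_mul, map_natCast, map_pow, ep, ev_z, one_pow, mul_one]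
    rw [Finset.sum_congr rfl h3, Finset.sum_const]
    obtain ⟨i, rfl⟩ : ∃ i, j = i + 1 := ⟨j - 1, by omega⟩
    rw [card_odds]
    by_cases hc : i + 1 = 1 ∧ X % 4 = 2
    · rw [if_pos hc]
      have hi : i = 0 := by omega
      have ha1 : (a : ZMod 2) = 1 := by
        have : a % 2 = 1 := by omega
        rw [← ZMod.natCast_mod, this]; rfl
      rw [hi, ha1]; decide
    · rw [if_neg hc]
      rcases Nat.eq_zero_or_pos i with hi | hi
      · have ha0 : (a : ZMod 2) = 0 := by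
          have h5 : X % 4 ≠ 2 := fun h => hc ⟨by omega, h⟩
          have : a % 2 = 0 := by omega
          rw [← ZMod.natCast_mod, this]; rfl
        rw [ha0]; simp
      · rw [nsmul_eq_mul]
        have : ((2 ^ i : ℕ) : ZMod 2) = 0 := by
          rw [ZMod.natCast_eq_zero_iff]; exact dvd_pow_self 2 (by omega)
        rw [this, zero_mul]

/-- **Exact evaluation of the Jacobi sum** `J(χ, χ)` for a prime of the form `X^(2^j) + 1`. -/
theorem IsChar.jacobi {j n X : ℕ} {χ : MulChar (ZMod p) (Cy j)} (hj : 1 ≤ j)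
    (hpX : p = X ^ (2 ^ j) + 1) (hX : Even X) (h : IsChar j n (X : ZMod p) χ) :
    χ 4 * jacobiSum χ χ = -((sg j X : ℤ) : Cy j) *
      ∏ b ∈ odds (2 ^ j), (1 - (X : Cy j) * z j ^ (2 ^ (j + 1) - iv j b)) := by
  obtain ⟨u, hu⟩ := h.dvd hpX hX
  set P0 : Cy j := ∏ b ∈ odds (2 ^ j), ((X : Cy j) - z j ^ iv j b) with hP0
  set P1 : Cy j := ∏ b ∈ odds (2 ^ j), (1 - (X : Cy j) * z j ^ (2 ^ (j + 1) - iv j b)) with hP1
  have hpc : (p : Cy j) = (X : Cy j) ^ (2 ^ j) + 1 := by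
    have := congrArg (Nat.cast : ℕ → Cy j) hpX
    rw [this]; push_cast; ring
  have hp0 : (p : Cy j) ≠ 0 := by exact_mod_cast hp.out.ne_zero
  have hnorm := norm_prod j X hj
  rw [← hP0, ← hpc] at hnorm
  have hJ := h.norm hj
  rw [hu, map_mul] at hJ
  have huu : u * cj j u = 1 := by
    apply mul_left_cancel₀ hp0
    rw [mul_one]
    nth_rewrite 1 [← hnorm]
    rw [← hJ]; ring
  obtain ⟨m, hm, hum⟩ := finite_order j u huu
  -- the unit V
  set V : Cy j := ∏ b ∈ odds (2 ^ j), (-(z j ^ iv j b)) with hV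
  have hPV : P0 = V * P1 := by
    rw [hP0, hV, hP1, ← Finset.prod_mul_distrib]
    refine Finset.prod_congr rfl fun b hb => ?_
    have e : z j ^ iv j b * z j ^ (2 ^ (j + 1) - iv j b) = 1 := by
      rw [← pow_add, Nat.add_sub_cancel' (iv_lt j b).le, z_pow_N]
    linear_combination (-(X : Cy j)) * e
  have hVord : V ^ (2 ^ (j + 1)) = 1 := by
    rw [hV, ← Finset.prod_pow]
    refine Finset.prod_eq_one fun b _ => ?_
    rw [neg_pow, ← pow_mul, mul_comm (iv j b), pow_mul, z_pow_N, one_pow, mul_one]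
    exact Even.neg_one_pow (Nat.even_pow.mpr ⟨even_two, by omega⟩)
  have h4 : (4 : ZMod p) ≠ 0 := by
    intro h0
    have : ((2 ^ 2 : ℕ) : ZMod p) = 0 := by
      push_cast; linear_combination h0
    rw [ZMod.natCast_eq_zero_iff] at this
    have h5 := hp.out.dvd_of_dvd_pow this
    have h6 := Nat.le_of_dvd (by norm_num) h5
    have := hp.out.two_le
    exact h.hp2 (by omega)
  obtain ⟨i4, hi4, -⟩ := h.hχ 4 h4
  have h4ord : (χ 4) ^ (2 ^ (j + 1)) = 1 := by
    rw [hi4, ← pow_mul, mul_comm, pow_mul, z_pow_N, one_pow]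
  obtain ⟨Y, hY0, hY⟩ := h.K_congr hj hpX hX
  obtain ⟨Y', hY1, hY2⟩ := prod_one_sub j X hj hX
  rw [← hP1] at hY1
  have hP1ne : P1 ≠ 0 := by
    intro h0
    rw [hPV, h0, mul_zero, zero_mul] at hnorm
    exact hp0 hnorm.symm
  -- the unit w
  have hw1 : χ 4 * jacobiSum χ χ = (χ 4 * u * V) * P1 := by
    rw [hu, hPV]; ring
  have hsg : (((sg j X : ℤ) : Cy j)) * ((sg j X : ℤ) : Cy j) = 1 := by
    unfold sg; split_ifs <;> norm_num
  set w : Cy j := -((sg j X : ℤ) : Cy j) * (χ 4 * u * V) with hw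
  have hwone : w = 1 := by
    have hword : w ^ (2 ^ (j + 1) * m) = 1 := by
      have e1 : (-((sg j X : ℤ) : Cy j)) ^ 2 = 1 := by
        rw [neg_sq, pow_two, hsg]
      have e2 : (-((sg j X : ℤ) : Cy j)) ^ (2 ^ (j + 1)) = 1 := by
        rw [pow_succ', pow_mul, e1, one_pow]
      have e3 : w ^ (2 ^ (j + 1)) = u ^ (2 ^ (j + 1)) := by
        rw [hw, mul_pow, mul_pow, mul_pow, hVord, h4ord, e2, one_mul, one_mul, mul_one]
      rw [pow_mul, e3, ← pow_mul, mul_comm, pow_mul, hum, one_pow]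
    have hwP : w * (1 + 2 * Y') = -((sg j X : ℤ) : Cy j) * (-1 + 2 * Y) := by
      rw [← hY, hw1, ← hY1, hw]; ring
    by_cases hc : j = 1 ∧ X % 4 = 2
    · have hs : ((sg j X : ℤ) : Cy j) = -1 := by unfold sg; rw [if_pos hc]; norm_num
      rw [if_pos hc] at hY2
      rw [hs] at hwP
      have e2 : w = 1 + 2 * (-1 + Y - w * Y') := by linear_combination hwP
      have epw : ep j w = 1 := by
        have e3 : ep j (2 : Cy j) = 0 := by rw [map_ofNat]; decide
        conv_lhs => rw [e2]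
        rw [map_add, map_mul, e3, map_one, zero_mul, add_zero]
      apply eq_one_of_congr j _ (Nat.mul_pos (by positivity) hm) w _ hword e2
      rw [map_sub, map_add, map_neg, map_one, map_mul, hY0, hY2, epw]; decide
    · have hs : ((sg j X : ℤ) : Cy j) = 1 := by unfold sg; rw [if_neg hc]; norm_num
      rw [if_neg hc] at hY2
      rw [hs] at hwP
      have e2 : w = 1 + 2 * (-Y - w * Y') := by linear_combination hwP
      apply eq_one_of_congr j _ (Nat.mul_pos (by positivity) hm) w _ hword e2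
      rw [map_sub, map_neg, map_mul, hY0, hY2]; ring
  have e5 : χ 4 * u * V = -((sg j X : ℤ) : Cy j) := by
    have : χ 4 * u * V = (((sg j X : ℤ) : Cy j) * ((sg j X : ℤ) : Cy j)) * (χ 4 * u * V) := by
      rw [hsg, one_mul]
    rw [this]
    linear_combination (-((sg j X : ℤ) : Cy j)) * (hw.symm.trans hwone)
  rw [hw1, e5]

end Pool.Agent.K4H55.Fermat
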