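import Pool.Agent.K4H55.Fermat.Wilson

set_option linter.style.haveILetI false

open Finset

namespace Pool.Agent.K4H55.Fermat

/-- The criterion for generalised Fermat numbers. -/
theorem criterion {b J k n F : ℕ} (hb : Even b) (hb0 : 0 < b) (hk : 2 ≤ k) (hkJ : k ≤ J + 1)
    (hlarge : 2 ^ k ≤ b ^ (2 ^ (J - 1))) (hF : F = b ^ (2 ^ J) + 1) (hn : 2 ^ k * n = F - 1) :
    F.Prime ↔ ((n.factorial : ℕ) : ZMod F) ^ (2 ^ k) *
      ∏ c ∈ (range (2 ^ k)).filter Odd, (((b ^ (2 ^ (J + 1 - k)) : ℕ) : ZMod F) -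
        ((b ^ (2 ^ (J + 1 - k)) : ℕ) : ZMod F) ^ ((c : ZMod (2 ^ k))⁻¹).val) ^ (c - 1) = 1 := by
  obtain ⟨j, rfl⟩ : ∃ j, k = j + 1 := ⟨k - 1, by omega⟩
  have hX : F = (b ^ (2 ^ (J + 1 - (j + 1)))) ^ (2 ^ j) + 1 := by
    rw [hF, ← pow_mul, ← pow_add]
    congr 3; omega
  constructor
  · intro hp
    haveI : Fact F.Prime := ⟨hp⟩
    have hXe : Even (b ^ (2 ^ (J + 1 - (j + 1)))) := Nat.even_pow.mpr ⟨hb, by positivity⟩
    have h4 : 4 ∣ F - 1 := by
      rw [hX, Nat.add_sub_cancel]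
      have h2 : 2 ∣ b ^ (2 ^ (J + 1 - (j + 1))) := hXe.two_dvd
      calc 4 = 2 ^ 2 := rfl
        _ ∣ 2 ^ (2 ^ j) := pow_dvd_pow 2 (by
            calc 2 = 2 ^ 1 := rfl
              _ ≤ 2 ^ j := Nat.pow_le_pow_right (by norm_num) (by omega))
        _ ∣ _ := pow_dvd_pow_of_dvd h2 _
    have := wilson_level j _ n hX hXe h4 hn
    rw [if_neg (by omega : ¬ j = 0)] at this
    exact this
  · intro h
    by_contra hnp
    have hF1 : F ≠ 1 := by
      rw [hF]; have : 0 < b ^ (2 ^ J) := by positivity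
      omega
    set q := F.minFac with hq
    have hqp : q.Prime := Nat.minFac_prime hF1
    have hqF : q ∣ F := Nat.minFac_dvd F
    have hFpos : 0 < F := by rw [hF]; positivity
    have hqsq : q ^ 2 ≤ F := Nat.minFac_sq_le_self hFpos hnp
    have hJ : 1 ≤ J := by omega
    have hsq : b ^ (2 ^ J) = (b ^ (2 ^ (J - 1))) ^ 2 := by
      rw [← pow_mul, ← pow_succ, Nat.sub_add_cancel hJ]
    set B := b ^ (2 ^ (J - 1)) with hB
    have hB1 : 1 ≤ B := Nat.one_le_two_pow.trans hlarge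
    have hqB : q ≤ B := by
      by_contra hlt
      have h1 : B + 1 ≤ q := by omega
      have h2 : (B + 1) ^ 2 ≤ q ^ 2 := Nat.pow_le_pow_left h1 2
      rw [hF, hsq] at hqsq
      nlinarith
    have hnB : B ≤ n := by
      rw [hF, Nat.add_sub_cancel, hsq] at hn
      have h1 : 2 ^ (j + 1) * n ≤ B * n := Nat.mul_le_mul_right _ hlarge
      have h2 : B * B ≤ B * n := by nlinarith
      exact Nat.le_of_mul_le_mul_left h2 (by omega)
    have hqn : q ∣ n.factorial := (Nat.dvd_factorial hqp.pos (hqB.trans hnB))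
    haveI : Fact q.Prime := ⟨hqp⟩
    have h3 := congrArg (ZMod.castHom hqF (ZMod q)) h
    rw [map_mul, map_pow, map_natCast, (ZMod.natCast_eq_zero_iff _ _).mpr hqn,
      zero_pow (by positivity), zero_mul, map_one] at h3
    exact zero_ne_one h3

/-- The exact evaluation of Jacobi sums with complex values. -/
theorem jacobi_complex {j n X p : ℕ} [Fact p.Prime] (hj : 1 ≤ j)
    (hpX : p = X ^ (2 ^ j) + 1) (hX : Even X) (hn : 2 ^ (j + 1) * n = p - 1) (ζ : ℂ)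
    (hζ : IsPrimitiveRoot ζ (2 ^ (j + 1))) (χ : MulChar (ZMod p) ℂ)
    (hχ : ∀ t : ZMod p, t ≠ 0 → ∀ i : ℕ, t ^ n = (X : ZMod p) ^ i → χ t = ζ ^ i) :
    χ 4 * jacobiSum χ χ = -((sg j X : ℤ) : ℂ) *
      ∏ b ∈ odds (2 ^ j), (1 - (X : ℂ) * ζ ^ (2 ^ (j + 1) - iv j b)) := by
  have hp2 : p ≠ 2 := by
    intro h2
    have h1 : Even (X ^ (2 ^ j)) := Nat.even_pow.mpr ⟨hX, by positivity⟩
    rw [h2] at hpX
    have : X ^ (2 ^ j) = 1 := by omega
    rw [this] at h1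
    exact absurd h1 (by decide)
  have hx : (X : ZMod p) ^ (2 ^ j) = -1 := by
    have h0 : ((p : ℕ) : ZMod p) = 0 := ZMod.natCast_self p
    have h1 := congrArg (Nat.cast : ℕ → ZMod p) hpX
    rw [h0] at h1
    push_cast at h1
    linear_combination -h1
  obtain ⟨χ', hχ'⟩ := exists_char hp2 hx hn
  have h : IsChar j n (X : ZMod p) χ' := ⟨hp2, hx, hn, hχ'⟩
  have hmain := congrArg (ev j ζ (prim_pow hζ)) (h.jacobi hj hpX hX)
  have hc : χ'.ringHomComp (ev j ζ (prim_pow hζ)) = χ := by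
    ext t
    obtain ⟨i, hi, hxi⟩ := hχ' t t.ne_zero
    rw [MulChar.ringHomComp_apply, hi, map_pow, ev_z, hχ t t.ne_zero i hxi.symm]
  rw [map_mul, ← jacobiSum_ringHomComp, ← MulChar.ringHomComp_apply, hc, map_mul, map_neg,
    map_intCast, map_prod] at hmain
  rw [hmain]
  congr 1
  refine Finset.prod_congr rfl fun b _ => ?_
  rw [map_sub, map_one, map_mul, map_natCast, map_pow, ev_z]

end Pool.Agent.K4H55.Fermat
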