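import Pool.Agent.K4H55.Fermat.Final

set_option linter.style.haveILetI false

open Finset

namespace Pool.Agent.K4H55.Fermat

variable {p : ℕ} [hp : Fact p.Prime]

/-- `χ` is the character with `χ t = ζ^i` for `t^n = X^i`. -/
def IsResidueChar (p n X : ℕ) (ζ : ℂ) (χ : MulChar (ZMod p) ℂ) : Prop :=
  ∀ t : ZMod p, t ≠ 0 → ∀ i : ℕ, t ^ n = (X : ZMod p) ^ i → χ t = ζ ^ i

lemma exists_int_char {j n X : ℕ} (hpX : p = X ^ (2 ^ j) + 1) (hX : Even X)
    (hn : 2 ^ (j + 1) * n = p - 1) {ζ : ℂ} (hζ : IsPrimitiveRoot ζ (2 ^ (j + 1)))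
    {χ : MulChar (ZMod p) ℂ} (hχ : IsResidueChar p n X ζ χ) :
    ∃ χ' : MulChar (ZMod p) (Cy j), IsChar j n (X : ZMod p) χ' ∧
      χ'.ringHomComp (ev j ζ (prim_pow hζ)) = χ := by
  have hp2 : p ≠ 2 := by
    intro h2
    have h1 : Even (X ^ (2 ^ j)) := Nat.even_pow.mpr ⟨hX, by positivity⟩
    rw [h2] at hpX
    have : X ^ (2 ^ j) = 1 := by omega
    rw [this] at h1
    exact absurd h1 (by decide)
  have hx : (X : ZMod p) ^ (2 ^ j) = -1 := by
    have h0 : ((p : ℕ) : ZMod p) = 0 := ZMod.natCast_self p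
    have h1 := congrArg (Nat.cast : ℕ → ZMod p) hpX
    rw [h0] at h1
    push_cast at h1
    linear_combination -h1
  obtain ⟨χ', hχ'⟩ := exists_char hp2 hx hn
  refine ⟨χ', ⟨hp2, hx, hn, hχ'⟩, ?_⟩
  ext t
  obtain ⟨i, hi, hxi⟩ := hχ' t t.ne_zero
  rw [MulChar.ringHomComp_apply, hi, map_pow, ev_z, hχ t t.ne_zero i hxi.symm]

/-- The product `∏ (1 - X ζ^(-c*))` over the odd `c < 2^j`. -/
noncomputable def jp (j X : ℕ) (ζ : ℂ) : ℂ :=
  ∏ c ∈ odds (2 ^ j), (1 - (X : ℂ) * ζ ^ (2 ^ (j + 1) - iv j c))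

/-- **The exact value of the `2^(j+1)`-th power of the Gauss sum** of order `2^(j+1)` for a prime
`X^(2^j) + 1`. -/
theorem gauss_power : ∀ (j n X : ℕ) (ζ : ℂ) (χ : MulChar (ZMod p) ℂ) (ψ : AddChar (ZMod p) ℂ),
    p = X ^ (2 ^ j) + 1 → Even X → 4 ∣ p - 1 → 2 ^ (j + 1) * n = p - 1 →
    IsPrimitiveRoot ζ (2 ^ (j + 1)) → IsResidueChar p n X ζ χ → ψ.IsPrimitive →
    gaussSum χ ψ ^ (2 ^ (j + 1)) =
      p * ∏ i ∈ range j, (jp (j - i) (X ^ (2 ^ i)) (ζ ^ (2 ^ i))) ^ (2 ^ (j - i)) := by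
  intro j
  induction j with
  | zero =>
    intro n X ζ χ ψ hpX hX h4 hn hζ hχ hψ
    obtain ⟨χ', hχ', hc⟩ := exists_int_char hpX hX hn hζ hχ
    have hne : χ ≠ 1 := by
      rw [← hc]; exact (MulChar.ringHomComp_ne_one_iff (ev_inj hζ)).mpr hχ'.ne_one
    have hζ1 : ζ = -1 := by have := prim_pow hζ; simpa using this
    have hquad : χ.IsQuadratic := by
      intro t
      by_cases ht : t = 0
      · left; rw [ht, MulChar.map_zero]
      · right
        have hu : IsUnit t := isUnit_iff_ne_zero.mpr ht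
        obtain ⟨i, hi, hxi⟩ := hχ'.hχ t ht
        rw [hχ t ht i hxi.symm, hζ1]
        rcases Nat.even_or_odd i with h | h
        · left; exact h.neg_one_pow
        · right; exact h.neg_one_pow
    have hneg : χ (-1) = 1 := by
      have hnev : Even n := by
        rw [zero_add, pow_one] at hn
        rw [← hn] at h4
        obtain ⟨q, hq⟩ := h4
        exact ⟨q, by omega⟩
      have := hχ (-1) (neg_ne_zero.mpr one_ne_zero) 0 (by rw [hnev.neg_one_pow, pow_zero])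
      rw [this, pow_zero]
    rw [zero_add, pow_one, gaussSum_sq hne hquad hψ, hneg, one_mul, ZMod.card]
    simp
  | succ j ih =>
    intro n X ζ χ ψ hpX hX h4 hn hζ hχ hψ
    obtain ⟨χ', hχ', hc⟩ := exists_int_char hpX hX hn hζ hχ
    have hsq : χ * χ ≠ 1 := by
      rw [← hc, ← MulChar.ringHomComp_mul]
      exact (MulChar.ringHomComp_ne_one_iff (ev_inj hζ)).mpr (hχ'.sq_ne_one (by omega))
    have hJ := jacobi_complex (j := j + 1) (by omega) hpX hX hn ζ hζ χ hχ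
    have hG := jacobiSum_mul_nontrivial hsq ψ
    -- the recursion
    have hζ2 : IsPrimitiveRoot (ζ ^ 2) (2 ^ (j + 1)) :=
      hζ.pow (by positivity) (by rw [pow_succ' 2 (j + 1)])
    have hpX2 : p = (X ^ 2) ^ (2 ^ j) + 1 := by
      rw [← pow_mul, ← pow_succ']; exact hpX
    have hX2 : Even (X ^ 2) := Nat.even_pow.mpr ⟨hX, by norm_num⟩
    have hx : (X : ZMod p) ^ (2 ^ (j + 1)) = -1 := hχ'.hx
    have hζh : ζ ^ (2 ^ (j + 1)) = -1 := prim_pow hζ
    have hχ2 : IsResidueChar p (2 * n) (X ^ 2) (ζ ^ 2) (χ * χ) := by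
      intro t ht i hti
      have h1 : (t ^ n) ^ 2 = ((X : ZMod p) ^ i) ^ 2 := by
        rw [← pow_mul, mul_comm n 2, hti]; push_cast
        rw [← pow_mul, ← pow_mul, mul_comm 2 i]
      rw [MulChar.mul_apply]
      rcases sq_eq_sq_iff_eq_or_eq_neg.mp h1 with h2 | h2
      · rw [hχ t ht i h2, ← pow_add, ← pow_mul, two_mul]
      · have h3 : t ^ n = (X : ZMod p) ^ (2 ^ (j + 1) + i) := by
          rw [h2, pow_add, hx]; ring
        rw [hχ t ht _ h3, pow_add, hζh, ← pow_mul]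
        ring
    have h4' : (4 : ZMod p) ≠ 0 := by
      intro h0
      have : ((2 ^ 2 : ℕ) : ZMod p) = 0 := by
        push_cast; linear_combination h0
      rw [ZMod.natCast_eq_zero_iff] at this
      have h5 := hp.out.dvd_of_dvd_pow this
      have h6 := Nat.le_of_dvd (by norm_num) h5
      have := hp.out.two_le
      exact hχ'.hp2 (by omega)
    have hχ4 : (χ 4) ^ (2 ^ (j + 1)) = 1 := by
      obtain ⟨i, hi, hxi⟩ := hχ'.hχ 4 h4'
      have h5 : (4 : ZMod p) ^ (2 ^ (j + 1) * n) = 1 := by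
        have h2 : (2 : ZMod p) ≠ 0 := by
          intro h0; apply h4'
          have : (4 : ZMod p) = 2 * 2 := by norm_num
          rw [this, h0, zero_mul]
        have : (4 : ZMod p) = 2 ^ 2 := by norm_num
        have e : 2 * (2 ^ (j + 1) * n) = p - 1 := by rw [← hn]; ring
        rw [this, ← pow_mul, e, ZMod.pow_card_sub_one_eq_one h2]
      have h6 : (X : ZMod p) ^ (i * 2 ^ (j + 1)) = 1 := by
        rw [pow_mul, hxi, ← pow_mul, mul_comm n, h5]
      have h7 := (prim_of_pow hχ'.hp2 hx).dvd_of_pow_eq_one _ h6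
      rw [hχ 4 h4' i hxi.symm, ← pow_mul]
      obtain ⟨q, hq⟩ := h7
      rw [hq, pow_mul, hζ.pow_eq_one, one_pow]
    have hJp : (jacobiSum χ χ) ^ (2 ^ (j + 1)) = (jp (j + 1) X ζ) ^ (2 ^ (j + 1)) := by
      have h5 := congrArg (fun y => y ^ (2 ^ (j + 1))) hJ
      rw [mul_pow, hχ4, one_mul, mul_pow] at h5
      rw [h5]
      have h6 : (-((sg (j + 1) X : ℤ) : ℂ)) ^ (2 ^ (j + 1)) = 1 := by
        have : (-((sg (j + 1) X : ℤ) : ℂ)) ^ 2 = 1 := by
          unfold sg; split_ifs <;> norm_num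
        rw [pow_succ', pow_mul, this, one_pow]
      rw [h6, one_mul]
      rfl
    have hIH := ih (2 * n) (X ^ 2) (ζ ^ 2) (χ * χ) ψ hpX2 hX2 h4 (by rw [← hn]; ring) hζ2 hχ2 hψ
    have h8 : gaussSum χ ψ ^ (2 ^ (j + 1 + 1)) =
        gaussSum (χ * χ) ψ ^ (2 ^ (j + 1)) * (jacobiSum χ χ) ^ (2 ^ (j + 1)) := by
      rw [← mul_pow, hG, pow_succ' 2 (j + 1), pow_mul, pow_two]
    rw [h8, hIH, hJp, Finset.prod_range_succ']
    simp only [pow_zero, pow_one, Nat.sub_zero]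
    rw [mul_assoc]
    congr 2
    refine Finset.prod_congr rfl fun i _ => ?_
    rw [show j + 1 - (i + 1) = j - i by omega, ← pow_mul, ← pow_mul, ← pow_succ']

end Pool.Agent.K4H55.Fermat
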