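import Pool.Agent.K4H55.Fermat.Chi

set_option linter.style.haveILetI false

open Finset

namespace Pool.Agent.K4H55.Fermat

/-- The inverse of `b` modulo `2^(j+1)`, as a natural number below `2^(j+1)`. -/
def iv (j b : ℕ) : ℕ := ((b : ZMod (2 ^ (j + 1)))⁻¹).val

lemma iv_lt (j b : ℕ) : iv j b < 2 ^ (j + 1) := ZMod.val_lt _

lemma iv_mul (j : ℕ) {b : ℕ} (hb : Odd b) : b * iv j b ≡ 1 [MOD 2 ^ (j + 1)] := by
  rw [← ZMod.natCast_eq_natCast_iff, iv]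
  push_cast
  rw [ZMod.natCast_val, ZMod.cast_id', id]
  exact ZMod.coe_mul_inv_eq_one b (Nat.Coprime.pow_right _ (Nat.coprime_two_right.mpr hb))

lemma odd_of_mul_modEq {j a b : ℕ} (h : a * b ≡ 1 [MOD 2 ^ (j + 1)]) : Odd a ∧ Odd b := by
  have h1 : a * b ≡ 1 [MOD 2] := h.of_dvd (dvd_pow_self 2 (by omega))
  have h2 : Odd (a * b) := by
    rw [Nat.odd_iff]; exact h1
  exact Nat.odd_mul.mp h2

lemma iv_odd (j : ℕ) {b : ℕ} (hb : Odd b) : Odd (iv j b) := (odd_of_mul_modEq (iv_mul j hb)).2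

lemma iv_unique (j : ℕ) {b c : ℕ} (h : b * c ≡ 1 [MOD 2 ^ (j + 1)]) (hc : c < 2 ^ (j + 1)) :
    iv j b = c := by
  have hb := (odd_of_mul_modEq h).1
  have h1 : b * iv j b ≡ b * c [MOD 2 ^ (j + 1)] := (iv_mul j hb).trans h.symm
  have h2 : iv j b ≡ c [MOD 2 ^ (j + 1)] :=
    Nat.ModEq.cancel_left_of_coprime
      ((Nat.Coprime.pow_right _ (Nat.coprime_two_right.mpr hb)).symm) h1
  exact Nat.ModEq.eq_of_lt_of_lt h2 (iv_lt _ _) hc

lemma iv_iv (j : ℕ) {b : ℕ} (hb : Odd b) (hlt : b < 2 ^ (j + 1)) : iv j (iv j b) = b :=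
  iv_unique j (by rw [mul_comm]; exact iv_mul j hb) hlt

lemma iv_inj (j : ℕ) {b c : ℕ} (hb : Odd b) (hc : Odd c) (hb' : b < 2 ^ (j + 1))
    (hc' : c < 2 ^ (j + 1)) (h : iv j b = iv j c) : b = c := by
  rw [← iv_iv j hb hb', h, iv_iv j hc hc']

lemma sub_dvd_p {j x p c : ℕ} (hp : p = x ^ (2 ^ j) + 1) (hc : Odd c) :
    ((x : Cy j) - z j ^ c) ∣ (p : Cy j) := by
  have h := sub_dvd_pow_sub_pow (x : Cy j) (z j ^ c) (2 ^ j)
  rw [← pow_mul, mul_comm c, pow_mul, z_pow, hc.neg_one_pow, sub_neg_eq_add] at h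
  rw [hp]; push_cast; exact h

lemma dvd_of_ev {j x p b c : ℕ} (hp : p = x ^ (2 ^ j) + 1) (hbc : b * c ≡ 1 [MOD 2 ^ (j + 1)])
    (hx : ((x : ZMod p) ^ b) ^ (2 ^ j) = -1) (r : Cy j)
    (h : ev j ((x : ZMod p) ^ b) hx r = 0) : ((x : Cy j) - z j ^ c) ∣ r := by
  obtain ⟨f, rfl⟩ := exists_aeval j r
  have hc := (odd_of_mul_modEq hbc).2
  have h1 : Polynomial.aeval (z j) f = Polynomial.eval (z j ^ c)
      ((f.comp (Polynomial.X ^ b)).map (Int.castRingHom (Cy j))) := by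
    rw [Polynomial.eval_map, Polynomial.eval₂_comp]
    simp only [Polynomial.eval₂_pow, Polynomial.eval₂_X]
    rw [← pow_mul, mul_comm c b, pow_congr (z_pow_N j) hbc, pow_one]
    rfl
  have h2 : Polynomial.eval (x : Cy j) ((f.comp (Polynomial.X ^ b)).map (Int.castRingHom (Cy j)))
      = ((Polynomial.eval (x : ℤ) (f.comp (Polynomial.X ^ b)) : ℤ) : Cy j) := by
    rw [Polynomial.eval_map]
    have := Polynomial.eval₂_at_intCast (p := (f.comp (Polynomial.X ^ b))) (Int.castRingHom (Cy j)) (x : ℤ)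
    simp
  have h3 : ((Polynomial.eval (x : ℤ) (f.comp (Polynomial.X ^ b)) : ℤ) : ZMod p) = 0 := by
    rw [← h]
    have h4 : ev j ((x : ZMod p) ^ b) hx (Polynomial.aeval (z j) f) =
        Polynomial.eval₂ (Int.castRingHom (ZMod p)) ((x : ZMod p) ^ b) f := by
      rw [Polynomial.aeval_def, Polynomial.hom_eval₂, ev_z]
      congr 1
      exact RingHom.ext_int _ _
    rw [h4, Polynomial.eval_comp]
    simp only [Polynomial.eval_pow, Polynomial.eval_X]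
    have := Polynomial.eval₂_at_intCast (p := f) (Int.castRingHom (ZMod p)) ((x : ℤ) ^ b)
    simp only [Int.cast_pow, Int.cast_natCast] at this
    rw [this]; simp
  rw [ZMod.intCast_zmod_eq_zero_iff_dvd] at h3
  obtain ⟨t, ht⟩ := h3
  have h5 := Polynomial.sub_dvd_eval_sub (x : Cy j) (z j ^ c)
    ((f.comp (Polynomial.X ^ b)).map (Int.castRingHom (Cy j)))
  rw [h1]
  have h6 : ((x : Cy j) - z j ^ c) ∣ Polynomial.eval (x : Cy j)
      ((f.comp (Polynomial.X ^ b)).map (Int.castRingHom (Cy j))) := by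
    rw [h2, ht]
    push_cast
    exact Dvd.dvd.mul_right (sub_dvd_p hp hc) _
  have h7 := dvd_sub h6 h5
  simp at h7
  exact h7

/-- `1 - z^d` divides two, for `0 < d < 2^(j+1)`. -/
lemma one_sub_dvd_two {j d : ℕ} (hd : 0 < d) (hd' : d < 2 ^ (j + 1)) :
    (1 - z j ^ d) ∣ (2 : Cy j) := by
  obtain ⟨a, e, he, hde⟩ := Nat.exists_eq_two_pow_mul_odd hd.ne'
  have ha : a ≤ j := by
    by_contra hlt
    have : 2 ^ (j + 1) ≤ d := by
      rw [hde]
      calc 2 ^ (j + 1) ≤ 2 ^ a := Nat.pow_le_pow_right (by norm_num) (by omega)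
        _ ≤ 2 ^ a * e := Nat.le_mul_of_pos_right _ he.pos
    omega
  have h1 : (z j ^ d) ^ (2 ^ (j - a)) = -1 := by
    rw [hde, ← pow_mul]
    have : 2 ^ a * e * 2 ^ (j - a) = 2 ^ j * e := by
      rw [mul_right_comm, ← pow_add, Nat.add_sub_cancel' ha]
    rw [this, pow_mul, z_pow, he.neg_one_pow]
  have h2 := sub_dvd_pow_sub_pow (1 : Cy j) (z j ^ d) (2 ^ (j - a))
  rw [h1, one_pow] at h2
  have h3 : (1 : Cy j) - -1 = 2 := by norm_num
  rwa [h3] at h2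

lemma z_unit (j c : ℕ) : IsUnit (z j ^ c) := by
  apply IsUnit.pow
  refine IsUnit.of_mul_eq_one (z j ^ (2 ^ (j + 1) - 1)) ?_
  rw [← pow_succ', Nat.sub_add_cancel Nat.one_le_two_pow, z_pow_N]

lemma coprime_aux {j x p c c' : ℕ} (hp : p = x ^ (2 ^ j) + 1) (hx : Even x) (hc : Odd c)
    (hlt : c < c') (hc' : c' < 2 ^ (j + 1)) :
    IsCoprime ((x : Cy j) - z j ^ c) ((x : Cy j) - z j ^ c') := by
  obtain ⟨t, ht⟩ := one_sub_dvd_two (j := j) (d := c' - c) (by omega) (by omega)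
  obtain ⟨u, hu⟩ := z_unit j c
  obtain ⟨q, hq⟩ := sub_dvd_p (j := j) hp hc
  obtain ⟨y, hy⟩ := hx
  have hsplit : (x : ℕ) ^ (2 ^ j) = 2 * (y * x ^ (2 ^ j - 1)) := by
    conv_lhs => rw [show 2 ^ j = (2 ^ j - 1) + 1 by have := Nat.one_le_two_pow (n := j); omega]
    rw [pow_succ]
    nth_rewrite 2 [hy]
    ring
  have hpe : (p : Cy j) = 2 * ((y * x ^ (2 ^ j - 1) : ℕ) : Cy j) + 1 := by
    rw [hp, hsplit]; push_cast; ring
  set s : Cy j := ((y * x ^ (2 ^ j - 1) : ℕ) : Cy j) with hs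
  -- difference
  have hdiff : z j ^ c - z j ^ c' = z j ^ c * (1 - z j ^ (c' - c)) := by
    rw [mul_sub, mul_one, ← pow_add, Nat.add_sub_cancel' hlt.le]
  have hui : (↑u⁻¹ : Cy j) * z j ^ c = 1 := by rw [← hu]; exact u.inv_mul
  refine ⟨q + s * t * ↑u⁻¹, - (s * t * ↑u⁻¹), ?_⟩
  have e1 : (q + s * t * ↑u⁻¹) * ((x : Cy j) - z j ^ c) + -(s * t * ↑u⁻¹) * ((x : Cy j) - z j ^ c')
      = ((x : Cy j) - z j ^ c) * q - s * t * ↑u⁻¹ * (z j ^ c - z j ^ c') := by ring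
  rw [e1, ← hq, hdiff, hpe]
  have e2 : s * t * ↑u⁻¹ * (z j ^ c * (1 - z j ^ (c' - c))) =
      s * (((↑u⁻¹ : Cy j) * z j ^ c) * ((1 - z j ^ (c' - c)) * t)) := by ring
  rw [e2, hui, ← ht]; ring

lemma coprime_factors {j x p c c' : ℕ} (hp : p = x ^ (2 ^ j) + 1) (hx : Even x) (hc : Odd c)
    (hcodd : Odd c') (hne : c ≠ c') (hcl : c < 2 ^ (j + 1)) (hcl' : c' < 2 ^ (j + 1)) :
    IsCoprime ((x : Cy j) - z j ^ c) ((x : Cy j) - z j ^ c') := by
  rcases lt_or_gt_of_ne hne with h | h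
  · exact coprime_aux hp hx hc h hcl'
  · exact (coprime_aux hp hx hcodd h hcl).symm

end Pool.Agent.K4H55.Fermat
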