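import Mathlib

set_option linter.style.haveILetI false

open Polynomial

namespace Pool.Agent.K4H55.Fermat

/-- The polynomial `X ^ (2 ^ j) + 1` over the integers. -/
noncomputable abbrev P (j : ℕ) : ℤ[X] := X ^ (2 ^ j) + 1

/-- The ring of integers `ℤ[X]/(X^(2^j) + 1)` of the `2^(j+1)`-th cyclotomic field. -/
abbrev Cy (j : ℕ) : Type := AdjoinRoot (P j)

lemma P_eq (j : ℕ) : P j = cyclotomic (2 ^ (j + 1)) ℤ := by
  rw [cyclotomic_prime_pow_eq_geom_sum Nat.prime_two]
  simp [Finset.sum_range_succ, P, add_comm]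

lemma P_irr (j : ℕ) : Irreducible (P j) := by
  rw [P_eq]; exact cyclotomic.irreducible (by positivity)

instance (j : ℕ) : IsDomain (Cy j) := AdjoinRoot.isDomain_of_prime (P_irr j).prime

/-- The class of `X`, a primitive `2^(j+1)`-th root of unity. -/
noncomputable def z (j : ℕ) : Cy j := AdjoinRoot.root (P j)

lemma z_pow (j : ℕ) : z j ^ (2 ^ j) = -1 := by
  have h : eval₂ (AdjoinRoot.of (P j)) (AdjoinRoot.root (P j)) (P j) = 0 :=
    AdjoinRoot.eval₂_root (P j)
  simp only [P, eval₂_add, eval₂_pow, eval₂_X, eval₂_one] at h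
  exact eq_neg_of_add_eq_zero_left h

/-- The ring homomorphism sending `z j` to `s`, where `s ^ (2 ^ j) = -1`. -/
noncomputable def ev {S : Type*} [CommRing S] (j : ℕ) (s : S) (hs : s ^ (2 ^ j) = -1) :
    Cy j →+* S :=
  AdjoinRoot.lift (Int.castRingHom S) s (by simp [P, eval₂_add, hs])

@[simp] lemma ev_z {S : Type*} [CommRing S] (j : ℕ) (s : S) (hs : s ^ (2 ^ j) = -1) :
    ev j s hs (z j) = s := by
  simp [ev, z]

lemma hom_ext {S : Type*} [CommRing S] (j : ℕ) {f g : Cy j →+* S} (h : f (z j) = g (z j)) :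
    f = g :=
  AdjoinRoot.ringHom_ext (RingHom.ext_int _ _) h

lemma exists_aeval (j : ℕ) (r : Cy j) : ∃ f : ℤ[X], aeval (z j) f = r := by
  obtain ⟨f, hf⟩ := AdjoinRoot.mk_surjective r
  exact ⟨f, by rw [← hf, z, AdjoinRoot.aeval_eq]⟩

/-- A primitive `2^(j+1)`-th root of unity satisfies `s ^ (2 ^ j) = -1`. -/
lemma prim_pow {S : Type*} [CommRing S] [IsDomain S] {j : ℕ} {s : S}
    (hs : IsPrimitiveRoot s (2 ^ (j + 1))) : s ^ (2 ^ j) = -1 := by
  have h1 : (s ^ (2 ^ j)) * (s ^ (2 ^ j)) = 1 := by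
    rw [← pow_two, ← pow_mul, ← pow_succ]; exact hs.pow_eq_one
  rcases mul_self_eq_one_iff.mp h1 with h | h
  · exact absurd h (hs.pow_ne_one_of_pos_of_lt (by positivity) (Nat.pow_lt_pow_right (by norm_num) (by omega)))
  · exact h


lemma z_pow_N (j : ℕ) : z j ^ (2 ^ (j + 1)) = 1 := by
  rw [pow_succ, pow_mul, z_pow]; norm_num

/-- Complex conjugation on `Cy j`. -/
noncomputable def cj (j : ℕ) : Cy j →+* Cy j :=
  ev j (z j ^ (2 ^ (j + 1) - 1)) (by
    rw [← pow_mul, mul_comm, pow_mul, z_pow]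
    refine Odd.neg_one_pow (Nat.Even.sub_odd Nat.one_le_two_pow ?_ odd_one)
    exact (Nat.even_pow.mpr ⟨even_two, by omega⟩))

/-- The embedding of `Cy j` into a field containing a primitive root. -/
lemma ev_inj {K : Type*} [Field K] [CharZero K] {j : ℕ} {s : K}
    (hs : IsPrimitiveRoot s (2 ^ (j + 1))) :
    Function.Injective (ev j s (prim_pow hs)) := by
  rw [injective_iff_map_eq_zero]
  intro r hr
  obtain ⟨f, rfl⟩ := AdjoinRoot.mk_surjective r
  have h1 : aeval s f = 0 := by
    rw [← hr, ev, AdjoinRoot.lift_mk, aeval_def]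
    rfl
  have h2 : minpoly ℤ s ∣ f := minpoly.isIntegrallyClosed_dvd (hs.isIntegral (by positivity)) h1
  rw [← cyclotomic_eq_minpoly hs (by positivity), ← P_eq] at h2
  rwa [AdjoinRoot.mk_eq_zero]

/-- An element of absolute value one at all places is a root of unity. -/
lemma finite_order (j : ℕ) (u : Cy j) (hu : u * cj j u = 1) : ∃ n : ℕ, 0 < n ∧ u ^ n = 1 := by
  haveI : NeZero ((2 ^ (j + 1) : ℕ) : ℚ) := ⟨by positivity⟩
  haveI hcyc : IsCyclotomicExtension {2 ^ (j + 1)} ℚ (CyclotomicField (2 ^ (j + 1)) ℚ) :=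
    CyclotomicField.isCyclotomicExtension (2 ^ (j + 1)) ℚ
  haveI : NumberField (CyclotomicField (2 ^ (j + 1)) ℚ) :=
    IsCyclotomicExtension.numberField {2 ^ (j + 1)} ℚ _
  have hζ := IsCyclotomicExtension.zeta_spec (2 ^ (j + 1)) ℚ (CyclotomicField (2 ^ (j + 1)) ℚ)
  set ζ := IsCyclotomicExtension.zeta (2 ^ (j + 1)) ℚ (CyclotomicField (2 ^ (j + 1)) ℚ) with hζd
  let ι := ev j ζ (prim_pow hζ)
  have hι : Function.Injective ι := ev_inj hζ
  haveI : Module.Finite ℤ (Cy j) := by
    apply Polynomial.Monic.finite_adjoinRoot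
    rw [P_eq]; exact cyclotomic.monic _ _
  have hint : IsIntegral ℤ (ι u) := map_isIntegral_int ι (Algebra.IsIntegral.isIntegral u)
  have habs : ∀ τ : CyclotomicField (2 ^ (j + 1)) ℚ →+* ℂ, ‖τ (ι u)‖ = 1 := by
    intro τ
    have h1 : (τ.comp ι).comp (cj j) = (starRingEnd ℂ).comp (τ.comp ι) := by
      apply hom_ext
      have hz : (τ (ι (z j))) ^ (2 ^ (j + 1)) = 1 := by
        rw [← map_pow, ← map_pow, z_pow_N, map_one, map_one]
      have hn : ‖τ (ι (z j))‖ = 1 := Complex.norm_eq_one_of_pow_eq_one hz (by positivity)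
      simp only [RingHom.coe_comp, Function.comp_apply, cj, ev_z, map_pow]
      have h2 : τ (ι (z j)) * (starRingEnd ℂ) (τ (ι (z j))) = 1 := by
        rw [Complex.mul_conj, Complex.normSq_eq_norm_sq, hn]; norm_num
      have h3 : τ (ι (z j)) * τ (ι (z j)) ^ (2 ^ (j + 1) - 1) = 1 := by
        rw [← pow_succ', Nat.sub_add_cancel Nat.one_le_two_pow, hz]
      have h4 : τ (ι (z j)) ≠ 0 := by
        intro h; rw [h, zero_mul] at h2; exact zero_ne_one h2
      exact mul_left_cancel₀ h4 (h3.trans h2.symm)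
    have h5 := congrArg (fun g => g u) h1
    simp only [RingHom.coe_comp, Function.comp_apply] at h5
    have h6 : τ (ι u) * (starRingEnd ℂ) (τ (ι u)) = 1 := by
      rw [← h5, ← map_mul, ← map_mul, hu, map_one, map_one]
    rw [Complex.mul_conj, Complex.normSq_eq_norm_sq] at h6
    have h7 : ‖τ (ι u)‖ ^ 2 = 1 := by exact_mod_cast h6
    nlinarith [norm_nonneg (τ (ι u)), sq_nonneg (‖τ (ι u)‖ - 1)]
  obtain ⟨n, hn, h⟩ := NumberField.Embeddings.pow_eq_one_of_norm_eq_one
    (CyclotomicField (2 ^ (j + 1)) ℚ) ℂ hint habs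
  exact ⟨n, hn, hι (by rw [map_pow, h, map_one])⟩

instance (j : ℕ) : CharZero (Cy j) := by
  have hω := Complex.isPrimitiveRoot_exp (2 ^ (j + 1)) (by positivity)
  exact (ev j _ (prim_pow hω)).charZero

/-- The reduction modulo the prime above `2`. -/
noncomputable def ep (j : ℕ) : Cy j →+* ZMod 2 := ev j 1 (by rw [one_pow]; decide)

/-- A root of unity which is congruent to one modulo `2` times the prime above `2` is one. -/
lemma eq_one_of_congr (j : ℕ) : ∀ (n : ℕ), 0 < n → ∀ (w y : Cy j), w ^ n = 1 →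
    w = 1 + 2 * y → ep j y = 0 → w = 1 := by
  intro n
  induction n using Nat.strong_induction_on with
  | _ n ih =>
    intro hn w y hw hwy hy
    rcases Nat.even_or_odd' n with ⟨c, hc | hc⟩
    · -- even
      have hcpos : 0 < c := by omega
      have h1 : (w ^ c) * (w ^ c) = 1 := by rw [← pow_add, ← two_mul, ← hc, hw]
      have hpow : ∀ i : ℕ, ∃ y' : Cy j, w ^ i = 1 + 2 * y' ∧ ep j y' = 0 := by
        intro i
        induction i with
        | zero => exact ⟨0, by simp, by simp⟩
        | succ i ihi =>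
          obtain ⟨y', h1, h2⟩ := ihi
          refine ⟨y' + y + 2 * y * y', ?_, ?_⟩
          · rw [pow_succ, h1, hwy]; ring
          · simp [h2, hy]
      obtain ⟨y', hy1, hy2⟩ := hpow c
      rcases mul_self_eq_one_iff.mp h1 with h | h
      · exact ih c (by omega) hcpos w y h hwy hy
      · exfalso
        have h2 : (2 : Cy j) * (y' + 1) = 0 := by
          have : (1 : Cy j) + 2 * y' = -1 := by rw [← hy1, h]
          linear_combination this
        rcases mul_eq_zero.mp h2 with h3 | h3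
        · exact two_ne_zero h3
        · have := congrArg (ep j) h3
          rw [map_add, hy2, map_one, map_zero] at this
          exact absurd this (by decide)
    · -- odd
      by_contra hne
      have h1 : (∑ i ∈ Finset.range n, w ^ i) * (w - 1) = 0 := by
        rw [geom_sum_mul, hw, sub_self]
      rcases mul_eq_zero.mp h1 with h2 | h2
      · have h3 := congrArg (ep j) h2
        have hw1 : ep j w = 1 := by
          rw [hwy]; simp [hy]
        rw [map_sum, map_zero] at h3
        simp only [map_pow, hw1, one_pow, Finset.sum_const, Finset.card_range, nsmul_eq_mul,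
          mul_one] at h3
        rw [hc] at h3
        push_cast at h3
        have h4 : (2 : ZMod 2) = 0 := by decide
        rw [h4, zero_mul, zero_add] at h3
        exact one_ne_zero h3
      · exact hne (sub_eq_zero.mp h2)

end Pool.Agent.K4H55.Fermat
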