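import Pool.Agent.K4H55.Fermat.Eval

set_option linter.style.haveILetI false

open Finset

namespace Pool.Agent.K4H55.Fermat

variable {p : ℕ} [hp : Fact p.Prime]

/-- **The Gauss congruence** for primes `X^(2^j) + 1`. -/
theorem gauss_congr {j X n : ℕ} (hj : 1 ≤ j) (hpX : p = X ^ (2 ^ j) + 1) (hX : Even X)
    (hn : 2 ^ (j + 1) * n = p - 1) :
    (((2 * n).choose n : ℕ) : ZMod p) = ((sg j X : ℤ) : ZMod p) * 4 ^ n *
      ∏ b ∈ odds (2 ^ j), (1 - (X : ZMod p) ^ (1 + iv j b)) := by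
  have hp2 : p ≠ 2 := by
    intro h2
    have h1 : Even (X ^ (2 ^ j)) := Nat.even_pow.mpr ⟨hX, by positivity⟩
    rw [h2] at hpX
    have : X ^ (2 ^ j) = 1 := by omega
    rw [this] at h1
    exact absurd h1 (by decide)
  have hx : (X : ZMod p) ^ (2 ^ j) = -1 := by
    have h0 : ((p : ℕ) : ZMod p) = 0 := ZMod.natCast_self p
    have h1 := congrArg (Nat.cast : ℕ → ZMod p) hpX
    rw [h0] at h1
    push_cast at h1
    linear_combination -h1
  obtain ⟨χ, hχ⟩ := exists_char hp2 hx hn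
  have h : IsChar j n (X : ZMod p) χ := ⟨hp2, hx, hn, hχ⟩
  have hmain := h.jacobi hj hpX hX
  have hNodd : Odd (2 ^ (j + 1) - 1) :=
    Nat.Even.sub_odd Nat.one_le_two_pow (Nat.even_pow.mpr ⟨even_two, by omega⟩) odd_one
  have hX1 : (X : ZMod p) ^ (2 ^ (j + 1)) = 1 := by
    rw [pow_succ, pow_mul, hx]; norm_num
  have hev := congrArg (ev j ((X : ZMod p) ^ (2 ^ (j + 1) - 1)) (xpow h.hx hNodd)) hmain
  rw [map_mul, h.ev_chi hNodd, jacobiSum, map_sum] at hev
  have e : ∀ t : ZMod p, ev j ((X : ZMod p) ^ (2 ^ (j + 1) - 1)) (xpow h.hx hNodd)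
      (χ t * χ (1 - t)) = t ^ ((2 ^ (j + 1) - 1) * n) * (1 - t) ^ ((2 ^ (j + 1) - 1) * n) := by
    intro t; rw [map_mul, h.ev_chi hNodd, h.ev_chi hNodd]
  have ha : (2 ^ (j + 1) - 1) * n + n = p - 1 := by
    rw [← hn]
    have : 1 ≤ 2 ^ (j + 1) := Nat.one_le_two_pow
    obtain ⟨q, hq⟩ := Nat.exists_eq_add_of_le this
    rw [hq, Nat.add_sub_cancel_left]; ring
  have hna : n ≤ (2 ^ (j + 1) - 1) * n := by
    apply Nat.le_mul_of_pos_left
    have : 2 ≤ 2 ^ (j + 1) := by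
      calc 2 = 2 ^ 1 := rfl
        _ ≤ 2 ^ (j + 1) := Nat.pow_le_pow_right (by norm_num) (by omega)
    omega
  rw [Finset.sum_congr rfl (fun t _ => e t), sum_large ha hna h.npos, choose_flip ha, map_mul,
    map_neg, map_intCast, map_prod] at hev
  have e2 : ∏ b ∈ odds (2 ^ j), ev j ((X : ZMod p) ^ (2 ^ (j + 1) - 1)) (xpow h.hx hNodd)
      (1 - (X : Cy j) * z j ^ (2 ^ (j + 1) - iv j b)) =
      ∏ b ∈ odds (2 ^ j), (1 - (X : ZMod p) ^ (1 + iv j b)) := by
    refine Finset.prod_congr rfl fun b _ => ?_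
    rw [map_sub, map_one, map_mul, map_natCast, map_pow, ev_z, ← pow_mul, add_comm 1 (iv j b),
      pow_succ' (X : ZMod p) (iv j b)]
    congr 2
    apply pow_congr hX1
    rw [← ZMod.natCast_eq_natCast_iff, Nat.cast_mul, Nat.cast_sub Nat.one_le_two_pow,
      Nat.cast_sub (iv_lt j b).le, ZMod.natCast_self]
    push_cast; ring
  rw [e2] at hev
  have h4 : (4 : ZMod p) ≠ 0 := by
    intro h0
    have : ((2 ^ 2 : ℕ) : ZMod p) = 0 := by
      push_cast; linear_combination h0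
    rw [ZMod.natCast_eq_zero_iff] at this
    have h5 := hp.out.dvd_of_dvd_pow this
    have h6 := Nat.le_of_dvd (by norm_num) h5
    have := hp.out.two_le
    exact h.hp2 (by omega)
  have h41 : (4 : ZMod p) ^ n * 4 ^ ((2 ^ (j + 1) - 1) * n) = 1 := by
    rw [← pow_add, add_comm, ha, ZMod.pow_card_sub_one_eq_one h4]
  have hsgn : ((-1 : ZMod p) ^ n) * ((-1) ^ n) = 1 := by
    rw [← mul_pow]; norm_num
  set D := ∏ b ∈ odds (2 ^ j), (1 - (X : ZMod p) ^ (1 + iv j b))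
  set C := (((2 * n).choose n : ℕ) : ZMod p)
  set A := (4 : ZMod p) ^ n
  set B := (4 : ZMod p) ^ ((2 ^ (j + 1) - 1) * n)
  set s := ((sg j X : ℤ) : ZMod p)
  set ε := (-1 : ZMod p) ^ n
  -- hev : B * -(ε * C * ε) = -s * D
  linear_combination (-A) * hev + (-C * (ε * ε)) * h41 - C * hsgn

/-- The classical base case: `((p-1)/2)!^2 = -1` if `p ≡ 1 (mod 4)`. -/
lemma half_factorial {n : ℕ} (hn : 2 * n = p - 1) (hev : Even n) :
    ((n.factorial : ℕ) : ZMod p) ^ 2 = -1 := by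
  have h1 := choose_flip (p := p) (a := n) (n := n) (by omega)
  rw [Nat.choose_self, hev.neg_one_pow, one_mul, Nat.cast_one] at h1
  have h2 : (2 * n).choose n * n.factorial * n.factorial = (2 * n).factorial := by
    have := Nat.choose_mul_factorial_mul_factorial (show n ≤ 2 * n by omega)
    rwa [show 2 * n - n = n by omega] at this
  have h3 := congrArg (Nat.cast : ℕ → ZMod p) h2
  push_cast at h3
  rw [← h1, one_mul, hn, ZMod.wilsons_lemma] at h3
  rw [pow_two, h3]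

/-- The product in the criterion. -/
def crit (R : Type*) [CommRing R] (j : ℕ) (x : R) : R :=
  ∏ c ∈ odds (2 ^ (j + 1)), (x - x ^ iv j c) ^ (c - 1)

lemma iv_add (j : ℕ) {c : ℕ} (hj : 1 ≤ j) (hc : Odd c) :
    iv j (2 ^ j + c) ≡ 2 ^ j + iv j c [MOD 2 ^ (j + 1)] := by
  have hodd : Odd (2 ^ j + c) := (Nat.even_pow.mpr ⟨even_two, by omega⟩).add_odd hc
  have h1 : (2 ^ j + c) * (2 ^ j + iv j c) ≡ 1 [MOD 2 ^ (j + 1)] := by
    have h2 := iv_mul j hc
    have h3 : (2 ^ j + c) * (2 ^ j + iv j c) = 2 ^ j * (2 ^ j + (c + iv j c)) + c * iv j c := by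
      ring
    have h4 : 2 ^ (j + 1) ∣ 2 ^ j * (2 ^ j + (c + iv j c)) := by
      rw [pow_succ]
      apply Nat.mul_dvd_mul_left
      apply Nat.dvd_add
      · exact dvd_pow_self 2 (by omega)
      · exact (hc.add_odd (iv_odd j hc)).two_dvd
    rw [h3]
    calc 2 ^ j * (2 ^ j + (c + iv j c)) + c * iv j c ≡ 0 + c * iv j c [MOD 2 ^ (j + 1)] :=
          Nat.ModEq.add_right _ ((Nat.modEq_zero_iff_dvd).mpr h4)
      _ ≡ 1 [MOD 2 ^ (j + 1)] := by rw [zero_add]; exact h2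
  have h5 : (2 ^ j + c) * iv j (2 ^ j + c) ≡ (2 ^ j + c) * (2 ^ j + iv j c) [MOD 2 ^ (j + 1)] :=
    (iv_mul j hodd).trans h1.symm
  exact Nat.ModEq.cancel_left_of_coprime
      ((Nat.Coprime.pow_right _ (Nat.coprime_two_right.mpr hodd)).symm) h5

lemma iv_reflect (j : ℕ) {c : ℕ} (hj : 1 ≤ j) (hc : Odd c) (hlt : c < 2 ^ j) :
    iv j c + iv j (2 ^ j - c) ≡ 2 ^ j [MOD 2 ^ (j + 1)] := by
  have hev : Even (2 ^ j) := Nat.even_pow.mpr ⟨even_two, by omega⟩
  have hodd : Odd (2 ^ j - c) := Nat.Even.sub_odd hlt.le hev hc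
  have h0 : c + (2 ^ j - c) = 2 ^ j := by omega
  -- multiply by c * (2^j - c)
  have h1 := (ZMod.natCast_eq_natCast_iff _ _ _).mpr (iv_mul j hc)
  have h2 := (ZMod.natCast_eq_natCast_iff _ _ _).mpr (iv_mul j hodd)
  rw [← ZMod.natCast_eq_natCast_iff]
  push_cast at h1 h2 ⊢
  have hcu : IsUnit (c : ZMod (2 ^ (j + 1))) := IsUnit.of_mul_eq_one _ h1
  have hdu : IsUnit (((2 ^ j - c : ℕ)) : ZMod (2 ^ (j + 1))) := IsUnit.of_mul_eq_one _ h2
  have h3 : (c : ZMod (2 ^ (j + 1))) + ((2 ^ j - c : ℕ) : ZMod (2 ^ (j + 1))) = 2 ^ j := by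
    rw [← Nat.cast_add, h0]; push_cast; rfl
  have h4 : (2 : ZMod (2 ^ (j + 1))) ^ j * ((c : ZMod (2 ^ (j + 1))) *
      ((2 ^ j - c : ℕ) : ZMod (2 ^ (j + 1))) - 1) = 0 := by
    have : Even (c * (2 ^ j - c) - 1) := by
      rcases (hc.mul hodd) with ⟨q, hq⟩
      rw [hq]; simp
    obtain ⟨q, hq⟩ := hc.mul hodd
    have h5 : (c : ZMod (2 ^ (j + 1))) * ((2 ^ j - c : ℕ) : ZMod (2 ^ (j + 1))) - 1 = 2 * q := by
      rw [← Nat.cast_mul, hq]; push_cast; ring
    rw [h5, ← mul_assoc, ← pow_succ]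
    have h6 : (2 : ZMod (2 ^ (j + 1))) ^ (j + 1) = 0 := by
      have := ZMod.natCast_self (2 ^ (j + 1))
      push_cast at this; exact this
    rw [h6, zero_mul]
  apply hcu.mul_left_cancel
  apply hdu.mul_left_cancel
  linear_combination ((2 ^ j - c : ℕ) : ZMod (2 ^ (j + 1))) * h1 + (c : ZMod (2 ^ (j + 1))) * h2
    + h3 - h4

lemma iv_level (j : ℕ) {c : ℕ} (hc : Odd c) :
    iv (j + 1) c ≡ iv j c [MOD 2 ^ (j + 1)] := by
  have h1 : c * iv (j + 1) c ≡ 1 [MOD 2 ^ (j + 1)] :=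
    (iv_mul (j + 1) hc).of_dvd (pow_dvd_pow 2 (by omega))
  exact Nat.ModEq.cancel_left_of_coprime
      ((Nat.Coprime.pow_right _ (Nat.coprime_two_right.mpr hc)).symm)
      (h1.trans (iv_mul j hc).symm)

/-- Recursion for the product of the criterion. -/
lemma crit_rec {S : Type*} [CommRing S] (j : ℕ) (x : S) (hx : x ^ (2 ^ (j + 1)) = -1) :
    crit S (j + 1) x = crit S j (x ^ 2) *
      ((-1) ^ (2 ^ j) * (∏ b ∈ odds (2 ^ (j + 1)), (1 - x ^ (1 + iv (j + 1) b))) ^ (2 ^ (j + 1))) := by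
  have hev : Even (2 ^ (j + 1)) := Nat.even_pow.mpr ⟨even_two, by omega⟩
  have hx1 : x ^ (2 ^ (j + 1 + 1)) = 1 := by rw [pow_succ, pow_mul, hx]; norm_num
  have hQ : (∏ c ∈ odds (2 ^ (j + 1)), (x + x ^ iv (j + 1) c)) ^ (2 ^ (j + 1)) =
      (-1) ^ (2 ^ j) * (∏ b ∈ odds (2 ^ (j + 1)), (1 - x ^ (1 + iv (j + 1) b))) ^ (2 ^ (j + 1)) := by
    have h1 : ∏ c ∈ odds (2 ^ (j + 1)), (x + x ^ iv (j + 1) c) =
        (∏ c ∈ odds (2 ^ (j + 1)), x ^ iv (j + 1) c) *
          ∏ c ∈ odds (2 ^ (j + 1)), (1 - x ^ (1 + iv (j + 1) c)) := by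
      rw [← prod_odds_reflect hev (fun c => 1 - x ^ (1 + iv (j + 1) c)), ← Finset.prod_mul_distrib]
      refine Finset.prod_congr rfl fun c hc => ?_
      have h2 := iv_reflect (j + 1) (by omega) (mem_odds.mp hc).2 (mem_odds.mp hc).1
      have h3 : x ^ (iv (j + 1) c + iv (j + 1) (2 ^ (j + 1) - c)) = -1 := by
        rw [pow_congr hx1 h2, hx]
      have h4 : x ^ iv (j + 1) c * x ^ (1 + iv (j + 1) (2 ^ (j + 1) - c)) =
          x * x ^ (iv (j + 1) c + iv (j + 1) (2 ^ (j + 1) - c)) := by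
        rw [← pow_add, ← pow_succ']; congr 1; ring
      rw [mul_sub, mul_one, h4, h3]; ring
    rw [h1, mul_pow, ← Finset.prod_pow]
    congr 1
    have h5 : ∀ c ∈ odds (2 ^ (j + 1)), (x ^ iv (j + 1) c) ^ (2 ^ (j + 1)) = -1 := by
      intro c hc
      rw [← pow_mul, mul_comm, pow_mul, hx, (iv_odd (j + 1) (mem_odds.mp hc).2).neg_one_pow]
    rw [Finset.prod_congr rfl h5, Finset.prod_const, card_odds]
  rw [← hQ, crit, crit, ← Finset.prod_pow]
  rw [show (2 : ℕ) ^ (j + 1 + 1) = 2 ^ (j + 1) + 2 ^ (j + 1) by ring, prod_odds_add hev,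
    ← Finset.prod_mul_distrib, ← Finset.prod_mul_distrib]
  refine Finset.prod_congr rfl fun c hc => ?_
  have hco := (mem_odds.mp hc).2
  have h6 : x ^ iv (j + 1) (2 ^ (j + 1) + c) = - x ^ iv (j + 1) c := by
    rw [pow_congr hx1 (iv_add (j + 1) (by omega) hco), pow_add, hx]; ring
  have h7 : (x ^ 2) ^ iv j c = (x ^ iv (j + 1) c) ^ 2 := by
    have h8 : (x ^ 2) ^ (2 ^ (j + 1)) = 1 := by rw [← pow_mul, ← pow_succ', hx1]
    rw [← pow_congr h8 (iv_level j hco), ← pow_mul, ← pow_mul, mul_comm]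
  have h9' : ∀ a b : ℕ, 0 < b → a + b - 1 = (b - 1) + a := by intro a b hb; omega
  have h9 : 2 ^ (j + 1) + c - 1 = (c - 1) + 2 ^ (j + 1) := h9' _ _ hco.pos
  rw [h6, h7, h9, pow_add, sub_neg_eq_add, ← mul_assoc, ← mul_pow]
  congr 2
  ring

/-- **Wilson's theorem at all `2`-power levels**, prime case. -/
theorem wilson_level : ∀ (j X n : ℕ), p = X ^ (2 ^ j) + 1 → Even X → 4 ∣ p - 1 →
    2 ^ (j + 1) * n = p - 1 →
    ((n.factorial : ℕ) : ZMod p) ^ (2 ^ (j + 1)) * crit (ZMod p) j (X : ZMod p) =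
      if j = 0 then -1 else 1 := by
  intro j
  induction j with
  | zero =>
    intro X n hpX hX h4 hn
    have h1 : odds (2 ^ (0 + 1)) = {1} := by decide
    rw [crit, h1, Finset.prod_singleton, if_pos rfl]
    simp only [Nat.sub_self, pow_zero, mul_one, zero_add, pow_one]
    rw [zero_add, pow_one] at hn
    apply half_factorial hn
    rw [← hn] at h4
    obtain ⟨q, hq⟩ := h4
    exact ⟨q, by omega⟩
  | succ j ih =>
    intro X n hpX hX h4 hn
    have hpX2 : p = (X ^ 2) ^ (2 ^ j) + 1 := by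
      rw [← pow_mul, ← pow_succ']; exact hpX
    have hX2 : Even (X ^ 2) := Nat.even_pow.mpr ⟨hX, by norm_num⟩
    have h1 := ih (X ^ 2) (2 * n) hpX2 hX2 h4 (by rw [← hn]; ring)
    have hG := gauss_congr (j := j + 1) (by omega) hpX hX hn
    have hx : (X : ZMod p) ^ (2 ^ (j + 1)) = -1 := by
      have h0 : ((p : ℕ) : ZMod p) = 0 := ZMod.natCast_self p
      have h1 := congrArg (Nat.cast : ℕ → ZMod p) hpX
      rw [h0] at h1
      push_cast at h1
      linear_combination -h1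
    have hfac : (((2 * n).factorial : ℕ) : ZMod p) =
        (((2 * n).choose n : ℕ) : ZMod p) * ((n.factorial : ℕ) : ZMod p) ^ 2 := by
      have h2 : (2 * n).choose n * n.factorial * n.factorial = (2 * n).factorial := by
        have := Nat.choose_mul_factorial_mul_factorial (show n ≤ 2 * n by omega)
        rwa [show 2 * n - n = n by omega] at this
      rw [← h2]; push_cast; ring
    set D := ∏ b ∈ odds (2 ^ (j + 1)), (1 - (X : ZMod p) ^ (1 + iv (j + 1) b)) with hD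
    have hp2 : (2 : ZMod p) ≠ 0 := by
      intro h0
      have : ((2 : ℕ) : ZMod p) = 0 := by exact_mod_cast h0
      rw [ZMod.natCast_eq_zero_iff] at this
      have h3 := Nat.le_of_dvd (by norm_num) this
      have := hp.out.two_le
      have h5 : p = 2 := by omega
      rw [h5] at h4
      exact absurd h4 (by decide)
    have hC : (((2 * n).choose n : ℕ) : ZMod p) ^ (2 ^ (j + 1)) = D ^ (2 ^ (j + 1)) := by
      rw [hG, mul_pow, mul_pow]
      have e1 : ((sg (j + 1) X : ℤ) : ZMod p) ^ (2 ^ (j + 1)) = 1 := by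
        have : ((sg (j + 1) X : ℤ) : ZMod p) ^ 2 = 1 := by
          unfold sg; split_ifs <;> norm_num
        rw [pow_succ', pow_mul, this, one_pow]
      have e2 : ((4 : ZMod p) ^ n) ^ (2 ^ (j + 1)) = 1 := by
        have : (4 : ZMod p) = 2 ^ 2 := by norm_num
        rw [this, ← pow_mul, ← pow_mul]
        have e3 : 2 * (n * 2 ^ (j + 1)) = p - 1 := by rw [← hn]; ring
        rw [e3, ZMod.pow_card_sub_one_eq_one hp2]
      rw [e1, e2, one_mul, one_mul]
    rw [crit_rec j _ hx, ← hD, ← hC]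
    rw [hfac, mul_pow] at h1
    push_cast at h1
    have e4 : ((n.factorial : ℕ) : ZMod p) ^ (2 ^ (j + 1 + 1)) =
        (((n.factorial : ℕ) : ZMod p) ^ 2) ^ (2 ^ (j + 1)) := by
      rw [← pow_mul, ← pow_succ']
    rw [e4]
    have e5 : (((n.factorial : ℕ) : ZMod p) ^ 2) ^ (2 ^ (j + 1)) *
        (crit (ZMod p) j ((X : ZMod p) ^ 2) *
          ((-1) ^ (2 ^ j) * (((2 * n).choose n : ℕ) : ZMod p) ^ (2 ^ (j + 1)))) =
        (-1) ^ (2 ^ j) * ((((2 * n).choose n : ℕ) : ZMod p) ^ (2 ^ (j + 1)) *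
          (((n.factorial : ℕ) : ZMod p) ^ 2) ^ (2 ^ (j + 1)) *
          crit (ZMod p) j ((X : ZMod p) ^ 2)) := by ring
    rw [e5, h1, if_neg (by omega : ¬ (j + 1 = 0))]
    by_cases hj : j = 0
    · subst hj; norm_num
    · rw [if_neg hj, mul_one]
      exact Even.neg_one_pow (Nat.even_pow.mpr ⟨even_two, hj⟩)

end Pool.Agent.K4H55.Fermat
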